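import Pool.Agent.N739.SN.Main
import Pool.Agent.H370R2.DirGood

/-!
# Cesaro sums of the Moebius function with characters, at every height (helper739)
-/

set_option autoImplicit false

open Complex Filter Topology Set

namespace Pool.Agent.N739.SN

noncomputable section

theorem poly_bd {G : ℂ → ℂ} {σ : ℝ} {C : ℝ} (h : ∀ s : ℂ, σ ≤ s.re → ‖G s‖ ≤ C * (1 + ‖s‖) ^ 4) :
    ∃ C : ℝ, ∀ s : ℂ, σ ≤ s.re → ‖G s‖ ≤ C * (1 + ‖s‖) ^ 4 := ⟨C, h⟩

theorem pow14 (s : ℂ) : 1 ≤ (1 + ‖s‖) ^ 4 := one_le_pow₀ (by linarith [norm_nonneg s])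

theorem pow14' (s : ℂ) : ‖s‖ ≤ (1 + ‖s‖) ^ 4 := by
  have h := norm_nonneg s
  calc ‖s‖ ≤ 1 + ‖s‖ := by linarith
    _ = (1 + ‖s‖) ^ 1 := (pow_one _).symm
    _ ≤ _ := pow_le_pow_right₀ (by linarith) (by norm_num)

/-- the coefficients -/
def muc {q : ℕ} (χ : DirichletCharacter ℂ q) (n : ℕ) : ℂ :=
  ((ArithmeticFunction.moebius n : ℤ) : ℂ) * χ (n : ZMod q)

/-- the coefficients -/
def mu1 (n : ℕ) : ℂ := ((ArithmeticFunction.moebius n : ℤ) : ℂ)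

theorem mu1_norm (n : ℕ) : ‖mu1 n‖ ≤ 1 := by
  unfold mu1
  rw [Complex.norm_intCast]
  exact_mod_cast ArithmeticFunction.abs_moebius_le_one

theorem muc_norm {q : ℕ} (χ : DirichletCharacter ℂ q) (n : ℕ) : ‖muc χ n‖ ≤ 1 := by
  unfold muc
  rw [norm_mul]
  have h1 := mu1_norm n
  have h2 := DirichletCharacter.norm_le_one χ (n : ZMod q)
  unfold mu1 at h1
  nlinarith [norm_nonneg (χ (n : ZMod q)), norm_nonneg ((ArithmeticFunction.moebius n : ℤ) : ℂ)]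

theorem cesaro_chi {q : ℕ} [NeZero q] {χ : DirichletCharacter ℂ q} (hχ : χ ≠ 1) {ρ : ℂ} (h0 : 0 < ρ.re)
    (hρ : DirichletCharacter.LFunction χ ρ = 0) {ε : ℝ} (hε : 0 < ε) :
    ∀ᶠ R : ℕ in atTop, ∃ k : ℕ, 1 ≤ k ∧ k ≤ R ∧ (k : ℝ) * (R : ℝ) ^ (ρ.re - ε) < ‖Ts (muc χ) k‖ := by
  refine soft (muc_norm χ) (F := DirichletCharacter.LFunction χ) (H := fun _ => 1)
    (DirichletCharacter.differentiable_LFunction hχ).differentiableOn (differentiableOn_const _)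
    (fun σ hσ => ?_) (fun σ hσ => ⟨1, fun s _ => ?_⟩) (fun s hs => ?_) h0 hρ one_ne_zero hε
  · refine ⟨(q + 1) / σ, fun s hs => ?_⟩
    have hs0 : 0 < s.re := by linarith
    have hA : ∀ u : ℝ, ‖∑ k ∈ Finset.Icc 1 ⌊u⌋₊, χ (k : ZMod q)‖ ≤ (q + 1 : ℝ) :=
      fun u => H370.DL.norm_sum_Icc_le hχ _
    rw [H370.DL.L_integral hχ hs0, norm_mul]
    have h4 := H370.DL.J_bound hA hs0
    have h5 : ((q : ℝ) + 1) / s.re ≤ (q + 1) / σ := div_le_div_of_nonneg_left (by positivity) hσ hs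
    calc _ ≤ ‖s‖ * ((q + 1) / σ) := mul_le_mul_of_nonneg_left (h4.trans h5) (norm_nonneg _)
      _ ≤ (1 + ‖s‖) ^ 4 * ((q + 1) / σ) := mul_le_mul_of_nonneg_right (pow14' s) (by positivity)
      _ = _ := mul_comm _ _
  · rw [norm_one, one_mul]
    exact pow14 s
  · have hs1 : 1 < s.re := by linarith
    rw [DirichletCharacter.LFunction_eq_LSeries χ hs1]
    have h := DirichletCharacter.LSeries.mul_mu_eq_one χ hs1
    have e : (muc χ) = (fun n : ℕ => χ (n : ZMod q)) * (fun n : ℕ => ((ArithmeticFunction.moebius n : ℤ) : ℂ)) := by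
      funext n
      simp only [muc, Pi.mul_apply]
      ring
    rw [e]
    exact h

/-- `(s - 1) ζ(s)` in the half-plane `Re s > 0` -/
def Fz (s : ℂ) : ℂ := s - (s - 1) * s * ∫ u in Ioi (1 : ℝ), ((Int.fract u : ℝ) : ℂ) * (u : ℂ) ^ (-s - 1)

theorem Fz_eq {s : ℂ} (hs : 0 < s.re) (hs1 : s ≠ 1) : Fz s = (s - 1) * riemannZeta s := by
  unfold Fz
  rw [ZU.J_a1.zf_one s hs hs1]
  have : s - 1 ≠ 0 := sub_ne_zero.2 hs1
  field_simp
  ring

theorem cesaro_zeta {ρ : ℂ} (h0 : 0 < ρ.re) (hρ : riemannZeta ρ = 0) {ε : ℝ} (hε : 0 < ε) :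
    ∀ᶠ R : ℕ in atTop, ∃ k : ℕ, 1 ≤ k ∧ k ≤ R ∧ (k : ℝ) * (R : ℝ) ^ (ρ.re - ε) < ‖Ts mu1 k‖ := by
  have hρ1 : ρ ≠ 1 := by
    rintro rfl
    exact riemannZeta_ne_zero_of_one_le_re (by simp) hρ
  refine soft mu1_norm (F := Fz) (H := fun s => s - 1)
    ?_ (differentiableOn_id.sub_const 1) (fun σ hσ => ?_) (fun σ hσ => ⟨2, fun s _ => ?_⟩) (fun s hs => ?_) h0
    (by rw [Fz_eq h0 hρ1, hρ, mul_zero]) (sub_ne_zero.2 hρ1) hε
  · unfold Fz
    exact differentiableOn_id.sub (((differentiableOn_id.sub_const 1).mul differentiableOn_id).mul ZU.J_a1.zf_diff)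
  · refine ⟨1 + 1 / σ, fun s hs => ?_⟩
    have hs0 : 0 < s.re := by linarith
    have hA : ∀ u : ℝ, ‖((Int.fract u : ℝ) : ℂ)‖ ≤ 1 := by
      intro u
      rw [Complex.norm_real, Real.norm_eq_abs, Int.abs_fract]
      exact (Int.fract_lt_one u).le
    have h4 := H370.DL.J_bound hA hs0
    have h5 : (1 : ℝ) / s.re ≤ 1 / σ := div_le_div_of_nonneg_left (by positivity) hσ hs
    unfold Fz
    refine (norm_sub_le _ _).trans ?_
    rw [norm_mul, norm_mul]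
    have h6 : ‖s - 1‖ * ‖s‖ ≤ (1 + ‖s‖) ^ 4 := by
      have h7 : ‖s - 1‖ ≤ ‖s‖ + 1 := by simpa using norm_sub_le s 1
      have h8 := norm_nonneg s
      calc _ ≤ (1 + ‖s‖) * (1 + ‖s‖) := mul_le_mul (by linarith) (by linarith) h8 (by linarith)
        _ = (1 + ‖s‖) ^ 2 := by ring
        _ ≤ _ := pow_le_pow_right₀ (by linarith) (by norm_num)
    calc _ ≤ (1 + ‖s‖) ^ 4 + (1 + ‖s‖) ^ 4 * (1 / σ) :=
          add_le_add (pow14' s) (mul_le_mul h6 (h4.trans h5) (norm_nonneg _) (by positivity))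
      _ = _ := by ring
  · have h7 : ‖s - 1‖ ≤ ‖s‖ + 1 := by simpa using norm_sub_le s 1
    have h8 := pow14 s
    have h9 := pow14' s
    linarith
  · have hs1 : 1 < s.re := by linarith
    have hs1' : s ≠ 1 := by
      rintro rfl
      simp at hs1
    rw [Fz_eq (by linarith) hs1', ← LSeries_one_eq_riemannZeta hs1]
    have h := LSeries_one_mul_Lseries_moebius hs1
    have e : mu1 = fun n : ℕ => ((ArithmeticFunction.moebius n : ℤ) : ℂ) := rfl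
    rw [mul_assoc, e, h, mul_one]

end

end Pool.Agent.N739.SN
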