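import Pool.Agent.N739.SN.Soft

/-!
# Fejer means and one-sided bounds for exponential sums (helper739)
-/

set_option autoImplicit false

open Complex Filter Topology Set

namespace Pool.Agent.N739.SN

noncomputable section

/-- `e(x) = exp(2πix)` -/
def ee (x : ℝ) : ℂ := Complex.exp (2 * Real.pi * Complex.I * x)

theorem ee_add (x y : ℝ) : ee (x + y) = ee x * ee y := by
  unfold ee
  rw [← Complex.exp_add]
  congr 1
  push_cast
  ring

theorem ee_zero : ee 0 = 1 := by simp [ee]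

theorem ee_int (n : ℤ) : ee n = 1 := by
  unfold ee
  rw [Complex.exp_eq_one_iff]
  exact ⟨n, by push_cast; ring⟩

theorem ee_nat (n : ℕ) : ee n = 1 := by
  have := ee_int n
  exact_mod_cast this

theorem ee_pow (x : ℝ) (n : ℕ) : ee x ^ n = ee (n * x) := by
  unfold ee
  rw [← Complex.exp_nat_mul]
  congr 1
  push_cast
  ring

theorem ee_conj (x : ℝ) : (starRingEnd ℂ) (ee x) = ee (-x) := by
  unfold ee
  rw [← Complex.exp_conj]
  congr 1
  have h2 : (starRingEnd ℂ) (2 : ℂ) = 2 := map_ofNat _ 2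
  simp only [map_mul, h2, Complex.conj_ofReal, Complex.conj_I, Complex.ofReal_neg]
  ring

theorem ee_half : ee (1 / 2) = -1 := by
  unfold ee
  rw [show 2 * (Real.pi : ℂ) * I * ((1 / 2 : ℝ) : ℂ) = Real.pi * I by push_cast; ring, Complex.exp_pi_mul_I]

theorem ee_eq_one {x : ℝ} (h : ee x = 1) : ∃ n : ℤ, x = n := by
  unfold ee at h
  rw [Complex.exp_eq_one_iff] at h
  obtain ⟨n, hn⟩ := h
  refine ⟨n, ?_⟩
  have h1 : (2 * (Real.pi : ℂ) * I) ≠ 0 := by
    simp [Real.pi_ne_zero, Complex.I_ne_zero]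
  have h2 : (x : ℂ) = n := by
    have h3 : (2 * (Real.pi : ℂ) * I) * x = (2 * (Real.pi : ℂ) * I) * n := by
      rw [hn]; ring
    exact mul_left_cancel₀ h1 h3
  exact_mod_cast h2

/-- orthogonality -/
theorem orth {N : ℕ} (hN : 0 < N) (l : ℤ) :
    ∑ j ∈ Finset.range N, ee (l * j / N) = if (N : ℤ) ∣ l then (N : ℂ) else 0 := by
  have hN0 : (N : ℝ) ≠ 0 := by positivity
  have e : ∀ j ∈ Finset.range N, ee (l * j / N) = ee (l / N) ^ j := by
    intro j _
    rw [ee_pow]
    congr 1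
    ring
  rw [Finset.sum_congr rfl e]
  by_cases h : (N : ℤ) ∣ l
  · rw [if_pos h]
    obtain ⟨m, rfl⟩ := h
    have : ee (((N : ℤ) * m : ℤ) / N) = 1 := by
      rw [show (((N : ℤ) * m : ℤ) : ℝ) / N = m by push_cast; field_simp]
      exact ee_int m
    rw [this]
    simp
  · rw [if_neg h]
    have hne : ee (l / N) ≠ 1 := by
      intro h1
      obtain ⟨n, hn⟩ := ee_eq_one h1
      apply h
      refine ⟨n, ?_⟩
      have h2 : (l : ℝ) = N * n := by
        field_simp at hn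
        linarith
      exact_mod_cast h2
    rw [geom_sum_eq hne, ee_pow]
    have : ee (N * (l / N)) = 1 := by
      rw [show (N : ℝ) * (l / N) = l by field_simp]
      exact ee_int l
    rw [this, sub_self, zero_div]

/-- the exponential sum -/
def Fs (a : ℕ → ℂ) (R : ℕ) (x : ℝ) : ℂ := ∑ n ∈ Finset.Icc 1 R, a n * ee (n * x)

/-- its Cesaro sums -/
def Ss (a : ℕ → ℂ) (k : ℕ) (x : ℝ) : ℂ := Ts (fun n => a n * ee (n * x)) k

theorem Ss_def (a : ℕ → ℂ) (k : ℕ) (x : ℝ) :
    Ss a k x = ∑ n ∈ Finset.Icc 1 k, ((k : ℂ) - n) * (a n * ee (n * x)) := rfl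

/-- the Dirichlet kernel -/
def Dk (k N j : ℕ) : ℂ := ∑ m ∈ Finset.range k, ee (m * j / N)

theorem Dk_sq (k N j : ℕ) : ((‖Dk k N j‖ ^ 2 : ℝ) : ℂ) =
    ∑ m' ∈ Finset.range k, ∑ m ∈ Finset.range k, ee (((m : ℤ) - m' : ℤ) * j / N) := by
  rw [← Complex.normSq_eq_norm_sq, ← Complex.mul_conj]
  unfold Dk
  rw [map_sum, Finset.sum_mul_sum, Finset.sum_comm]
  refine Finset.sum_congr rfl fun m' _ => Finset.sum_congr rfl fun m _ => ?_
  rw [ee_conj, ← ee_add]
  congr 1
  push_cast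
  ring

theorem cnt (k n : ℕ) (N : ℂ) :
    ∑ m' ∈ Finset.range k, ∑ m ∈ Finset.range k, (if m = m' + n then N else 0) = ((k - n : ℕ) : ℂ) * N := by
  have h1 : ∀ m' ∈ Finset.range k, ∑ m ∈ Finset.range k, (if m = m' + n then N else 0) =
      if m' + n < k then N else 0 := by
    intro m' _
    rw [Finset.sum_ite_eq' (Finset.range k) (m' + n) (fun _ => N)]
    simp
  rw [Finset.sum_congr rfl h1, ← Finset.sum_filter, Finset.sum_const]
  have h2 : (Finset.range k).filter (fun m' => m' + n < k) = Finset.range (k - n) := by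
    ext m
    simp only [Finset.mem_filter, Finset.mem_range]
    omega
  rw [h2, Finset.card_range, nsmul_eq_mul]

theorem cnt2 {k n N : ℕ} (hN : n + k ≤ N) :
    ∑ m' ∈ Finset.range k, ∑ m ∈ Finset.range k, ∑ j ∈ Finset.range N, ee (((m : ℤ) - m' - n : ℤ) * j / N) =
      ((k - n : ℕ) : ℂ) * N := by
  rw [← cnt]
  refine Finset.sum_congr rfl fun m' hm' => Finset.sum_congr rfl fun m hm => ?_
  rw [Finset.mem_range] at hm hm'
  rw [orth (by omega)]
  have h : ((N : ℤ) ∣ (m : ℤ) - m' - n) ↔ m = m' + n := by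
    constructor
    · intro h
      by_contra hne
      have h0 : (m : ℤ) - m' - n ≠ 0 := by omega
      have := Int.le_of_dvd (abs_pos.2 h0) ((dvd_abs _ _).2 h)
      rcases le_or_gt 0 ((m : ℤ) - m' - n) with h2 | h2
      · rw [abs_of_nonneg h2] at this
        omega
      · rw [abs_of_neg h2] at this
        omega
    · intro h
      have : (m : ℤ) - m' - n = 0 := by omega
      rw [this]
      exact dvd_zero _
  simp only [h]

/-- the kernel has mass `k` -/
theorem Dk_mass {k N : ℕ} (hN : k ≤ N) : ∑ j ∈ Finset.range N, (‖Dk k N j‖ ^ 2 : ℝ) = (k : ℝ) * N := by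
  have h : ((∑ j ∈ Finset.range N, (‖Dk k N j‖ ^ 2 : ℝ) : ℝ) : ℂ) = ((k : ℝ) * N : ℝ) := by
    push_cast
    have h1 : ∀ j ∈ Finset.range N, ((‖Dk k N j‖ : ℂ)) ^ 2 =
        ∑ m' ∈ Finset.range k, ∑ m ∈ Finset.range k, ee (((m : ℤ) - m' - (0 : ℕ) : ℤ) * j / N) := by
      intro j _
      have := Dk_sq k N j
      push_cast at this ⊢
      rw [this]
      simp only [sub_zero]
    rw [Finset.sum_congr rfl h1, Finset.sum_comm]
    have h2 : ∀ m' ∈ Finset.range k, ∑ j ∈ Finset.range N, ∑ m ∈ Finset.range k,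
        ee (((m : ℤ) - m' - (0 : ℕ) : ℤ) * j / N) = ∑ m ∈ Finset.range k, ∑ j ∈ Finset.range N,
        ee (((m : ℤ) - m' - (0 : ℕ) : ℤ) * j / N) := fun m' _ => Finset.sum_comm
    rw [Finset.sum_congr rfl h2, cnt2 (by omega)]
    simp
  exact_mod_cast h

/-- the Fejer mean as an average -/
theorem fejer (a : ℕ → ℂ) {k R : ℕ} (hk : k ≤ R) (x : ℝ) :
    ∑ j ∈ Finset.range (R + k), ((‖Dk k (R + k) j‖ ^ 2 : ℝ) : ℂ) * Fs a R (x - j / (R + k : ℕ)) =
      ((R + k : ℕ) : ℂ) * Ss a k x := by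
  set N := R + k with hN
  have h1 : ∀ j ∈ Finset.range N, ((‖Dk k N j‖ ^ 2 : ℝ) : ℂ) * Fs a R (x - j / N) =
      ∑ n ∈ Finset.Icc 1 R, ∑ m' ∈ Finset.range k, ∑ m ∈ Finset.range k,
        a n * ee (n * x) * ee (((m : ℤ) - m' - n : ℤ) * j / N) := by
    intro j _
    rw [Dk_sq]
    unfold Fs
    rw [Finset.sum_mul_sum, Finset.sum_comm]
    refine Finset.sum_congr rfl fun n _ => Finset.sum_congr rfl fun m' _ => ?_
    rw [Finset.sum_mul]
    refine Finset.sum_congr rfl fun m _ => ?_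
    have e : ee (n * (x - j / N)) = ee (n * x) * ee (-(n * (j / N))) := by
      rw [← ee_add]
      congr 1
      ring
    rw [e]
    have e2 : ee (((m : ℤ) - m' - n : ℤ) * j / N) = ee (((m : ℤ) - m' : ℤ) * j / N) * ee (-(n * (j / N))) := by
      rw [← ee_add]
      congr 1
      push_cast
      ring
    rw [e2]
    ring
  rw [Finset.sum_congr rfl h1, Finset.sum_comm]
  have h2 : ∀ n ∈ Finset.Icc 1 R, ∑ j ∈ Finset.range N, ∑ m' ∈ Finset.range k, ∑ m ∈ Finset.range k,
      a n * ee (n * x) * ee (((m : ℤ) - m' - n : ℤ) * j / N) =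
      (N : ℂ) * (((k - n : ℕ) : ℂ) * (a n * ee (n * x))) := by
    intro n hn
    rw [Finset.mem_Icc] at hn
    have h3 : ∑ j ∈ Finset.range N, ∑ m' ∈ Finset.range k, ∑ m ∈ Finset.range k,
        a n * ee (n * x) * ee (((m : ℤ) - m' - n : ℤ) * j / N) =
        a n * ee (n * x) * ∑ m' ∈ Finset.range k, ∑ m ∈ Finset.range k, ∑ j ∈ Finset.range N,
          ee (((m : ℤ) - m' - n : ℤ) * j / N) := by
      rw [Finset.sum_comm, Finset.mul_sum]
      refine Finset.sum_congr rfl fun m' _ => ?_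
      rw [Finset.sum_comm, Finset.mul_sum]
      refine Finset.sum_congr rfl fun m _ => ?_
      rw [Finset.mul_sum]
    rw [h3, cnt2 (by omega)]
    ring
  rw [Finset.sum_congr rfl h2, ← Finset.mul_sum, Ss_def]
  congr 1
  have hsub : Finset.Icc 1 k ⊆ Finset.Icc 1 R := Finset.Icc_subset_Icc_right hk
  rw [← Finset.sum_subset hsub]
  · refine Finset.sum_congr rfl fun n hn => ?_
    rw [Finset.mem_Icc] at hn
    push_cast [hn.2]
    ring
  · intro n _ hn
    have : k - n = 0 := by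
      by_contra h
      apply hn
      rw [Finset.mem_Icc]
      rename_i h1
      rw [Finset.mem_Icc] at h1
      omega
    rw [this]
    simp

/-- one-sided bounds pass to the Cesaro sums -/
theorem fejer_bound {a : ℕ → ℂ} {k R : ℕ} (hk : k ≤ R) (hR : 0 < R) {w : ℂ} {B : ℝ}
    (h : ∀ x : ℝ, (w * Fs a R x).re ≤ B) (x : ℝ) : (w * Ss a k x).re ≤ k * B := by
  have h1 := fejer a hk x
  have h2 : ((R + k : ℕ) : ℝ) * (w * Ss a k x).re =
      ∑ j ∈ Finset.range (R + k), (‖Dk k (R + k) j‖ ^ 2 : ℝ) * (w * Fs a R (x - j / (R + k : ℕ))).re := by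
    have h3 : ((R + k : ℕ) : ℂ) * (w * Ss a k x) =
        ∑ j ∈ Finset.range (R + k), ((‖Dk k (R + k) j‖ ^ 2 : ℝ) : ℂ) * (w * Fs a R (x - j / (R + k : ℕ))) := by
      calc _ = w * (((R + k : ℕ) : ℂ) * Ss a k x) := by ring
        _ = _ := by
            rw [← h1, Finset.mul_sum]
            exact Finset.sum_congr rfl fun j _ => by ring
    have h4 := congrArg Complex.re h3
    rw [Complex.re_sum] at h4
    have h5 : (((R + k : ℕ) : ℂ) * (w * Ss a k x)).re = ((R + k : ℕ) : ℝ) * (w * Ss a k x).re := by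
      rw [show ((R + k : ℕ) : ℂ) = (((R + k : ℕ) : ℝ) : ℂ) by push_cast; ring, Complex.re_ofReal_mul]
    rw [← h5, h4]
    exact Finset.sum_congr rfl fun j _ => by rw [Complex.re_ofReal_mul]
  have h6 : ((R + k : ℕ) : ℝ) * (w * Ss a k x).re ≤ ((R + k : ℕ) : ℝ) * (k * B) := by
    rw [h2]
    calc _ ≤ ∑ j ∈ Finset.range (R + k), (‖Dk k (R + k) j‖ ^ 2 : ℝ) * B :=
          Finset.sum_le_sum fun j _ => mul_le_mul_of_nonneg_left (h _) (by positivity)
      _ = _ := by
          rw [← Finset.sum_mul, Dk_mass (by omega)]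
          ring
  have h7 : (0 : ℝ) < ((R + k : ℕ) : ℝ) := by positivity
  exact le_of_mul_le_mul_left h6 h7

end

end Pool.Agent.N739.SN
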