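import Pool.Agent.N739.SN.Par
import Pool.Agent.N739.SN.Chi

/-!
# The sup norm of the Moebius exponential sum at every height (helper739)
-/

set_option autoImplicit false

open Complex Filter Topology Set

namespace Pool.Agent.N739.SN

noncomputable section

/-- finite Fourier expansion -/
theorem expansion (q : ℕ) [NeZero q] (f : ZMod q → ℂ) : ∃ c : ℕ → ℂ, ∀ n : ℤ,
    f (n : ZMod q) = ∑ b ∈ Finset.range q, c b * ee (n * (b / q)) := by
  have hq : 0 < q := NeZero.pos q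
  have hq0 : (q : ℂ) ≠ 0 := by exact_mod_cast hq.ne'
  refine ⟨fun b => (q : ℂ)⁻¹ * ∑ m ∈ Finset.range q, f (m : ZMod q) * ee (-(m * (b / q))), fun n => ?_⟩
  have h1 : ∑ b ∈ Finset.range q, ((q : ℂ)⁻¹ * ∑ m ∈ Finset.range q, f (m : ZMod q) * ee (-(m * (b / q)))) *
      ee (n * (b / q)) = (q : ℂ)⁻¹ * ∑ m ∈ Finset.range q, f (m : ZMod q) *
        ∑ b ∈ Finset.range q, ee ((n - m : ℤ) * b / q) := by
    have h2 : ∀ b ∈ Finset.range q, ((q : ℂ)⁻¹ * ∑ m ∈ Finset.range q, f (m : ZMod q) * ee (-(m * (b / q)))) *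
        ee (n * (b / q)) = (q : ℂ)⁻¹ * ∑ m ∈ Finset.range q, f (m : ZMod q) * ee ((n - m : ℤ) * b / q) := by
      intro b _
      rw [mul_assoc, Finset.sum_mul]
      congr 1
      refine Finset.sum_congr rfl fun m _ => ?_
      rw [mul_assoc, ← ee_add]
      congr 2
      push_cast
      ring
    rw [Finset.sum_congr rfl h2, ← Finset.mul_sum, Finset.sum_comm]
    congr 1
    exact Finset.sum_congr rfl fun m _ => (Finset.mul_sum _ _ _).symm
  rw [h1]
  obtain ⟨m0, hm0, hm1⟩ : ∃ m0 : ℕ, m0 < q ∧ (q : ℤ) ∣ n - m0 := by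
    refine ⟨(n % q).toNat, ?_, ?_⟩
    · have := Int.emod_lt_of_pos n (by exact_mod_cast hq : (0 : ℤ) < q)
      have h0 := Int.emod_nonneg n (by exact_mod_cast hq.ne' : (q : ℤ) ≠ 0)
      omega
    · have h0 := Int.emod_nonneg n (by exact_mod_cast hq.ne' : (q : ℤ) ≠ 0)
      rw [Int.toNat_of_nonneg h0]
      exact Int.dvd_self_sub_emod
  have h3 : ∀ m ∈ Finset.range q, f (m : ZMod q) * ∑ b ∈ Finset.range q, ee ((n - m : ℤ) * b / q) =
      if m = m0 then f (m0 : ZMod q) * q else 0 := by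
    intro m hm
    rw [Finset.mem_range] at hm
    rw [orth hq]
    by_cases h : m = m0
    · rw [if_pos h, h, if_pos hm1]
    · rw [if_neg h, if_neg, mul_zero]
      intro h4
      have h5 : (q : ℤ) ∣ (m : ℤ) - m0 := by
        have := dvd_sub hm1 h4
        rw [show n - m0 - (n - m) = (m : ℤ) - m0 by ring] at this
        exact this
      have h0 : (m : ℤ) - m0 ≠ 0 := by omega
      have h6 := Int.le_of_dvd (abs_pos.2 h0) ((dvd_abs _ _).2 h5)
      rcases le_or_gt 0 ((m : ℤ) - m0) with h7 | h7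
      · rw [abs_of_nonneg h7] at h6
        omega
      · rw [abs_of_neg h7] at h6
        omega
  rw [Finset.sum_congr rfl h3, Finset.sum_ite_eq' (Finset.range q) m0, if_pos (Finset.mem_range.2 hm0)]
  have h8 : (n : ZMod q) = (m0 : ZMod q) := by
    have h9 := (ZMod.intCast_eq_intCast_iff_dvd_sub (m0 : ℤ) n q).2 hm1
    rw [← h9]
    push_cast
    rfl
  rw [h8]
  field_simp

theorem mu1_conj (n : ℕ) : (starRingEnd ℂ) (mu1 n) = mu1 n := by
  unfold mu1
  exact map_intCast _ _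

/-- the sum with a character as a combination -/
theorem chi_sum {q : ℕ} (χ : DirichletCharacter ℂ q) {c : ℕ → ℂ}
    (hc : ∀ n : ℤ, χ (n : ZMod q) = ∑ b ∈ Finset.range q, c b * ee (n * (b / q))) (k : ℕ) :
    Ts (muc χ) k = ∑ b ∈ Finset.range q, c b * Ss mu1 k (b / q) ∧
    χ (-1) * Ts (muc χ) k = ∑ b ∈ Finset.range q, c b * Ss mu1 k (-(b / q)) := by
  constructor
  · have h1 : ∀ b ∈ Finset.range q, c b * Ss mu1 k (b / q) =
        ∑ n ∈ Finset.Icc 1 k, ((k : ℂ) - n) * (mu1 n * (c b * ee (n * (b / q)))) := by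
      intro b _
      rw [Ss_def, Finset.mul_sum]
      exact Finset.sum_congr rfl fun n _ => by ring
    rw [Finset.sum_congr rfl h1, Finset.sum_comm]
    unfold Ts muc
    refine Finset.sum_congr rfl fun n _ => ?_
    have h2 := hc n
    push_cast at h2
    rw [h2, ← Finset.mul_sum, ← Finset.mul_sum]
    rfl
  · have h1 : ∀ b ∈ Finset.range q, c b * Ss mu1 k (-(b / q)) =
        ∑ n ∈ Finset.Icc 1 k, ((k : ℂ) - n) * (mu1 n * (c b * ee ((-n : ℤ) * (b / q)))) := by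
      intro b _
      rw [Ss_def, Finset.mul_sum]
      refine Finset.sum_congr rfl fun n _ => ?_
      rw [show (((-n : ℤ) : ℝ) * (b / q)) = (n : ℝ) * (-(b / q)) by push_cast; ring]
      ring
    rw [Finset.sum_congr rfl h1, Finset.sum_comm]
    unfold Ts muc
    rw [Finset.mul_sum]
    refine Finset.sum_congr rfl fun n _ => ?_
    rw [← Finset.mul_sum, ← Finset.mul_sum, ← hc (-n : ℤ)]
    have e : ((-n : ℤ) : ZMod q) = (-1) * (n : ZMod q) := by
      push_cast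
      ring
    rw [e, map_mul]
    unfold mu1
    ring

/-- the logarithm -/
theorem clog_le {R : ℕ} (hR : 2 ≤ R) : (Nat.clog 2 R : ℝ) ≤ 3 * Real.log R := by
  have h1 : Nat.clog 2 R ≤ Nat.log 2 R + 1 := by
    refine Nat.clog_le_of_le_pow ?_
    exact (Nat.lt_pow_succ_log_self (by norm_num) R).le
  have h2 : (Nat.log 2 R : ℝ) ≤ Real.log R / Real.log 2 := by
    have h3 : ((2 : ℝ)) ^ (Nat.log 2 R) ≤ R := by exact_mod_cast Nat.pow_log_le_self 2 (by omega)
    have h4 := Real.log_le_log (by positivity) h3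
    rw [Real.log_pow] at h4
    rw [le_div_iff₀ (Real.log_pos (by norm_num))]
    exact h4
  have h5 : 1 ≤ Real.log R / Real.log 2 := by
    rw [le_div_iff₀ (Real.log_pos (by norm_num)), one_mul]
    exact Real.log_le_log (by norm_num) (by exact_mod_cast hR)
  have h6 : Real.log R / Real.log 2 ≤ 3 / 2 * Real.log R := by
    have h7 : 0 ≤ Real.log R := Real.log_nonneg (by exact_mod_cast (by omega : 1 ≤ R))
    rw [div_le_iff₀ (Real.log_pos (by norm_num))]
    have := Real.log_two_gt_d9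
    nlinarith
  have h8 : (Nat.clog 2 R : ℝ) ≤ (Nat.log 2 R : ℝ) + 1 := by exact_mod_cast h1
  linarith

/-- the final comparison -/
theorem log_small (C : ℝ) {ε : ℝ} (hε : 0 < ε) : ∀ᶠ R : ℕ in atTop, C * Nat.clog 2 R < (R : ℝ) ^ ε := by
  have h1 := isLittleO_log_rpow_atTop hε
  have h2 : ∀ᶠ x : ℝ in atTop, ‖Real.log x‖ ≤ (1 / (3 * (|C| + 1))) * ‖x ^ ε‖ := h1.def (by positivity)
  have h3 := tendsto_natCast_atTop_atTop.eventually h2
  filter_upwards [h3, eventually_ge_atTop 2] with R hR hR2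
  have hR0 : (0 : ℝ) < R := by exact_mod_cast (by omega : 0 < R)
  have hp : 0 < (R : ℝ) ^ ε := by positivity
  rw [Real.norm_eq_abs, Real.norm_eq_abs, abs_of_pos hp] at hR
  have h4 := (le_abs_self _).trans hR
  have h5 := clog_le hR2
  have h6 : (Nat.clog 2 R : ℝ) ≤ (R : ℝ) ^ ε / (|C| + 1) := by
    refine h5.trans ?_
    calc 3 * Real.log R ≤ 3 * (1 / (3 * (|C| + 1)) * (R : ℝ) ^ ε) := by linarith
      _ = _ := by field_simp
  have h7 : C * Nat.clog 2 R ≤ |C| * Nat.clog 2 R := mul_le_mul_of_nonneg_right (le_abs_self C) (by positivity)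
  have h8 : |C| * (Nat.clog 2 R : ℝ) ≤ |C| * ((R : ℝ) ^ ε / (|C| + 1)) :=
    mul_le_mul_of_nonneg_left h6 (abs_nonneg C)
  have h9 : |C| * ((R : ℝ) ^ ε / (|C| + 1)) < (R : ℝ) ^ ε := by
    rw [← mul_div_assoc, div_lt_iff₀ (by positivity)]
    nlinarith
  linarith

/-- the common step -/
theorem step {w : ℂ} {T : ℕ → ℂ} {K β ε : ℝ} (hK : 0 ≤ K) (hε : 0 < ε)
    (hT : ∀ᶠ R : ℕ in atTop, ∃ k : ℕ, 1 ≤ k ∧ k ≤ R ∧ (k : ℝ) * (R : ℝ) ^ (β - ε / 2) < ‖T k‖)
    (hb : ∀ (k : ℕ) (D : ℝ), (∀ x : ℝ, |(w * Ss mu1 k x).re| ≤ D) → ‖T k‖ ≤ K * D) :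
    ∀ᶠ R : ℕ in atTop, ∃ x : ℝ, (R : ℝ) ^ (β - ε) < (w * Fs mu1 R x).re := by
  filter_upwards [hT, log_small (2 * K) (ε := ε / 2) (by linarith), eventually_ge_atTop 1] with R h1 h2 hR1
  by_contra hcon
  push Not at hcon
  obtain ⟨k, hk1, hkR, hk⟩ := h1
  have hR0 : (0 : ℝ) < R := by exact_mod_cast hR1
  have hk0 : (0 : ℝ) < k := by exact_mod_cast hk1
  have h3 := two_sided mu_rule (w := w) (B := (R : ℝ) ^ (β - ε)) (by positivity) hR1 hcon k hkR
  have h4 := hb k _ h3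
  have h5 : K * (2 * k * (R : ℝ) ^ (β - ε) * Nat.clog 2 R) =
      k * ((2 * K * Nat.clog 2 R) * (R : ℝ) ^ (β - ε)) := by ring
  have h6 : (2 * K * Nat.clog 2 R) * (R : ℝ) ^ (β - ε) ≤ (R : ℝ) ^ (β - ε / 2) := by
    calc _ ≤ (R : ℝ) ^ (ε / 2) * (R : ℝ) ^ (β - ε) := mul_le_mul_of_nonneg_right h2.le (by positivity)
      _ = _ := by
          rw [← Real.rpow_add hR0]
          congr 1
          ring
  rw [h5] at h4
  have h7 := mul_le_mul_of_nonneg_left h6 hk0.le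
  linarith

theorem zeta_case {w : ℂ} (hw : w.re ≠ 0) {ρ : ℂ} (h0 : 0 < ρ.re) (hρ : riemannZeta ρ = 0) {ε : ℝ} (hε : 0 < ε) :
    ∀ᶠ R : ℕ in atTop, ∃ x : ℝ, (R : ℝ) ^ (ρ.re - ε) < (w * Fs mu1 R x).re := by
  refine step (K := |w.re|⁻¹) (by positivity) hε (cesaro_zeta h0 hρ (half_pos hε)) fun k D hD => ?_
  have h1 := (re_im_bound mu1_conj hD 0).1
  have h2 : Ss mu1 k 0 = Ts mu1 k := by
    unfold Ss
    congr 1
    funext n
    rw [mul_zero, ee_zero, mul_one]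
  rw [h2] at h1
  have h3 : (Ts mu1 k).im = 0 := by
    rw [← Complex.conj_eq_iff_im, ← h2, ← Ss_conj mu1_conj, neg_zero]
  have h4 : ‖Ts mu1 k‖ = |(Ts mu1 k).re| := by
    have : Ts mu1 k = (((Ts mu1 k).re : ℝ) : ℂ) := by
      apply Complex.ext
      · simp
      · simp [h3]
    rw [this, Complex.norm_real]
    simp
  rw [h4]
  have hw0 : 0 < |w.re| := abs_pos.2 hw
  rw [← div_eq_inv_mul, le_div_iff₀ hw0]
  linarith

theorem chi_case {w : ℂ} {q : ℕ} [NeZero q] {χ : DirichletCharacter ℂ q} (hχ : χ ≠ 1)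
    (hw : (χ.Even ∧ w.re ≠ 0) ∨ (χ.Odd ∧ w.im ≠ 0)) {ρ : ℂ} (h0 : 0 < ρ.re)
    (hρ : DirichletCharacter.LFunction χ ρ = 0) {ε : ℝ} (hε : 0 < ε) :
    ∀ᶠ R : ℕ in atTop, ∃ x : ℝ, (R : ℝ) ^ (ρ.re - ε) < (w * Fs mu1 R x).re := by
  obtain ⟨c, hc⟩ := expansion q (fun z => χ z)
  set Cc : ℝ := ∑ b ∈ Finset.range q, ‖c b‖ with hCc
  have hCc0 : 0 ≤ Cc := Finset.sum_nonneg fun _ _ => norm_nonneg _
  rcases hw with ⟨he, hw⟩ | ⟨ho, hw⟩
  · refine step (K := Cc * |w.re|⁻¹) (by positivity) hε (cesaro_chi hχ h0 hρ (half_pos hε)) fun k D hD => ?_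
    obtain ⟨h1, h2⟩ := chi_sum χ hc k
    rw [show χ (-1) = 1 from he, one_mul] at h2
    have hw0 : 0 < |w.re| := abs_pos.2 hw
    have h3 : 2 * Ts (muc χ) k = ∑ b ∈ Finset.range q, c b * ((2 * (Ss mu1 k (b / q)).re : ℝ) : ℂ) := by
      rw [two_mul]
      nth_rewrite 1 [h1]
      rw [h2, ← Finset.sum_add_distrib]
      refine Finset.sum_congr rfl fun b _ => ?_
      rw [Ss_conj mu1_conj, ← mul_add, Complex.add_conj]
    have h4 : ‖2 * Ts (muc χ) k‖ ≤ ∑ b ∈ Finset.range q, ‖c b‖ * (2 * (D * |w.re|⁻¹)) := by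
      rw [h3]
      refine (norm_sum_le _ _).trans (Finset.sum_le_sum fun b _ => ?_)
      rw [norm_mul, Complex.norm_real, Real.norm_eq_abs, abs_mul, abs_of_pos (by norm_num : (0 : ℝ) < 2)]
      refine mul_le_mul_of_nonneg_left ?_ (norm_nonneg _)
      have h5 := (re_im_bound mu1_conj hD (b / q)).1
      have h6 : |(Ss mu1 k (b / q)).re| ≤ D * |w.re|⁻¹ := by
        rw [← div_eq_mul_inv, le_div_iff₀ hw0]
        linarith
      linarith
    rw [← Finset.sum_mul, ← hCc, norm_mul, Complex.norm_ofNat] at h4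
    nlinarith
  · refine step (K := Cc * |w.im|⁻¹) (by positivity) hε (cesaro_chi hχ h0 hρ (half_pos hε)) fun k D hD => ?_
    obtain ⟨h1, h2⟩ := chi_sum χ hc k
    rw [show χ (-1) = -1 from ho, neg_one_mul] at h2
    have hw0 : 0 < |w.im| := abs_pos.2 hw
    have h3 : 2 * Ts (muc χ) k = ∑ b ∈ Finset.range q, c b * (((2 * (Ss mu1 k (b / q)).im : ℝ) : ℂ) * I) := by
      have e : 2 * Ts (muc χ) k = Ts (muc χ) k - (-Ts (muc χ) k) := by ring
      rw [e, h2]
      nth_rewrite 1 [h1]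
      rw [← Finset.sum_sub_distrib]
      refine Finset.sum_congr rfl fun b _ => ?_
      rw [Ss_conj mu1_conj, ← mul_sub, Complex.sub_conj]
    have h4 : ‖2 * Ts (muc χ) k‖ ≤ ∑ b ∈ Finset.range q, ‖c b‖ * (2 * (D * |w.im|⁻¹)) := by
      rw [h3]
      refine (norm_sum_le _ _).trans (Finset.sum_le_sum fun b _ => ?_)
      rw [norm_mul, norm_mul, Complex.norm_real, Complex.norm_I, mul_one, Real.norm_eq_abs, abs_mul,
        abs_of_pos (by norm_num : (0 : ℝ) < 2)]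
      refine mul_le_mul_of_nonneg_left ?_ (norm_nonneg _)
      have h5 := (re_im_bound mu1_conj hD (b / q)).2
      have h6 : |(Ss mu1 k (b / q)).im| ≤ D * |w.im|⁻¹ := by
        rw [← div_eq_mul_inv, le_div_iff₀ hw0]
        linarith
      linarith
    rw [← Finset.sum_mul, ← hCc, norm_mul, Complex.norm_ofNat] at h4
    nlinarith

/-- the unconditional lower bound -/
theorem uncond (w : ℂ) (R : ℕ) (hR : 2 ≤ R) : ∃ x : ℝ,
    1 / 200 * ‖w‖ * Real.sqrt R / Real.log R ≤ (w * Fs mu1 R x).re := by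
  by_contra hcon
  push Not at hcon
  have hR0 : (0 : ℝ) < R := by exact_mod_cast (by omega : 0 < R)
  have hL : 0 < Real.log R := Real.log_pos (by exact_mod_cast (by omega : 1 < R))
  have hw : 0 < ‖w‖ := by
    rcases eq_or_ne w 0 with h | h
    · exfalso
      have := hcon 0
      rw [h] at this
      simp at this
    · exact norm_pos_iff.2 h
  set B : ℝ := 1 / 200 * ‖w‖ * Real.sqrt R / Real.log R with hB
  have hB0 : 0 ≤ B := by positivity
  have h1 := two_sided mu_rule (w := w) hB0 (by omega : 0 < R) (fun x => (hcon x).le) R le_rfl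
  have h2 := parseval_re (a := mu1) h1
  -- the mass
  have h3 : (R : ℝ) ^ 3 / 192 ≤ ∑ n ∈ Finset.Icc 1 R, ((R : ℝ) - n) ^ 2 * ‖mu1 n‖ ^ 2 := by
    have hsub : Finset.Icc 1 (R / 2) ⊆ Finset.Icc 1 R := Finset.Icc_subset_Icc_right (by omega)
    have h4 : ∑ n ∈ Finset.Icc 1 (R / 2), ((R : ℝ) / 2) ^ 2 * ‖mu1 n‖ ^ 2 ≤
        ∑ n ∈ Finset.Icc 1 R, ((R : ℝ) - n) ^ 2 * ‖mu1 n‖ ^ 2 := by
      refine (Finset.sum_le_sum fun n hn => ?_).trans
        (Finset.sum_le_sum_of_subset_of_nonneg hsub fun n _ _ => by positivity)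
      rw [Finset.mem_Icc] at hn
      refine mul_le_mul_of_nonneg_right ?_ (by positivity)
      have h5 : (n : ℝ) ≤ (R : ℝ) / 2 := by
        rw [le_div_iff₀ (by norm_num)]
        have : n * 2 ≤ R := by omega
        exact_mod_cast this
      refine pow_le_pow_left₀ (by positivity) ?_ 2
      linarith
    rw [← Finset.mul_sum] at h4
    have h5 := sqf_count (R / 2)
    have h6 : (R : ℝ) / 3 ≤ ((R / 2 : ℕ) : ℝ) := by
      rw [div_le_iff₀ (by norm_num)]
      have : R ≤ (R / 2) * 3 := by omega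
      exact_mod_cast this
    have h7 : (R : ℝ) / 12 ≤ ∑ n ∈ Finset.Icc 1 (R / 2), ‖mu1 n‖ ^ 2 := by
      refine le_trans ?_ h5
      linarith
    calc (R : ℝ) ^ 3 / 192 ≤ ((R : ℝ) / 2) ^ 2 * (R / 12) := by
          have : (0 : ℝ) ≤ (R : ℝ) ^ 3 := by positivity
          nlinarith
      _ ≤ ((R : ℝ) / 2) ^ 2 * ∑ n ∈ Finset.Icc 1 (R / 2), ‖mu1 n‖ ^ 2 :=
          mul_le_mul_of_nonneg_left h7 (by positivity)
      _ ≤ _ := h4
  have h8 : 2 * (R : ℝ) * B * Nat.clog 2 R ≤ 6 / 200 * ‖w‖ * (R * Real.sqrt R) := by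
    have h9 := clog_le hR
    calc 2 * (R : ℝ) * B * Nat.clog 2 R ≤ 2 * (R : ℝ) * B * (3 * Real.log R) :=
          mul_le_mul_of_nonneg_left h9 (by positivity)
      _ = _ := by
          rw [hB]
          field_simp
          ring
  have h10 : (2 * (R : ℝ) * B * Nat.clog 2 R) ^ 2 ≤ 36 / 40000 * ‖w‖ ^ 2 * (R : ℝ) ^ 3 := by
    calc _ ≤ (6 / 200 * ‖w‖ * (R * Real.sqrt R)) ^ 2 := pow_le_pow_left₀ (by positivity) h8 2
      _ = 36 / 40000 * ‖w‖ ^ 2 * (R ^ 2 * (Real.sqrt R) ^ 2) := by ring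
      _ = _ := by
          rw [Real.sq_sqrt hR0.le]
          ring
  have h11 : ‖w‖ ^ 2 * ((R : ℝ) ^ 3 / 192) ≤ 2 * (36 / 40000 * ‖w‖ ^ 2 * (R : ℝ) ^ 3) :=
    (mul_le_mul_of_nonneg_left h3 (by positivity)).trans (h2.trans (by linarith))
  have h12 : 0 < ‖w‖ ^ 2 * (R : ℝ) ^ 3 := by positivity
  nlinarith

end

end Pool.Agent.N739.SN
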