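import Pool.Agent.N739.SN.Soft

/-!
# A lower bound for Cesaro sums at every height, from one zero: the theorem (helper739)
-/

set_option autoImplicit false

open Complex Filter Topology Set

namespace Pool.Agent.N739.SN

noncomputable section

theorem den_lower {s : ℂ} (hs : 0 ≤ s.re) : (1 + ‖s‖) ^ 6 ≤ 64 * ‖s + 1‖ ^ 6 := by
  have h1 : ‖s‖ ≤ ‖s + 1‖ := by
    rw [Complex.norm_def, Complex.norm_def]
    apply Real.sqrt_le_sqrt
    simp only [Complex.normSq_apply, add_re, one_re, add_im, one_im, add_zero]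
    nlinarith
  have h2 : 1 ≤ ‖s + 1‖ := by
    have := Complex.re_le_norm (s + 1)
    simp only [add_re, one_re] at this
    linarith
  have h3 : 1 + ‖s‖ ≤ 2 * ‖s + 1‖ := by linarith
  calc (1 + ‖s‖) ^ 6 ≤ (2 * ‖s + 1‖) ^ 6 := pow_le_pow_left₀ (by positivity) h3 6
    _ = _ := by ring

theorem num_upper (s : ℂ) : ‖s‖ * ‖s + 1‖ ≤ (1 + ‖s‖) ^ 2 := by
  have h1 : ‖s + 1‖ ≤ ‖s‖ + 1 := by simpa using norm_add_le s 1
  have h2 := norm_nonneg s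
  nlinarith [norm_nonneg (s + 1)]

theorem pow46 (s : ℂ) : (1 + ‖s‖) ^ 4 ≤ (1 + ‖s‖) ^ 6 :=
  pow_le_pow_right₀ (by linarith [norm_nonneg s]) (by norm_num)

/-- the auxiliary function -/
def gg (F H : ℂ → ℂ) (a : ℕ → ℂ) (N : ℕ) (κ : ℝ) (ρ s : ℂ) : ℂ :=
  (F s * Pt a N s - H s) * ((N + 1 : ℕ) : ℂ) ^ ((κ : ℂ) * (s - ρ)) / (s + 1) ^ 6

theorem gg_norm (F H : ℂ → ℂ) (a : ℕ → ℂ) (N : ℕ) (κ : ℝ) (ρ s : ℂ) (hs : 0 ≤ s.re) {X : ℝ}
    (h : ‖F s * Pt a N s - H s‖ ≤ X * (1 + ‖s‖) ^ 6) :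
    ‖gg F H a N κ ρ s‖ ≤ 64 * X * ((N + 1 : ℕ) : ℝ) ^ (κ * (s.re - ρ.re)) := by
  unfold gg
  have h1 : 0 < ‖s + 1‖ := by
    have := Complex.re_le_norm (s + 1)
    simp only [add_re, one_re] at this
    linarith
  have hX : 0 ≤ X := by
    have h2 := (norm_nonneg _).trans h
    have h3 : 0 < (1 + ‖s‖) ^ 6 := by positivity
    by_contra hX
    push Not at hX
    nlinarith
  rw [norm_div, norm_mul, norm_pow, Complex.norm_natCast_cpow_of_pos (Nat.succ_pos N)]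
  have e : ((κ : ℂ) * (s - ρ)).re = κ * (s.re - ρ.re) := by simp
  rw [e, div_le_iff₀ (by positivity)]
  have h4 : ‖F s * Pt a N s - H s‖ ≤ X * (64 * ‖s + 1‖ ^ 6) :=
    h.trans (mul_le_mul_of_nonneg_left (den_lower hs) hX)
  calc _ ≤ X * (64 * ‖s + 1‖ ^ 6) * ((N + 1 : ℕ) : ℝ) ^ (κ * (s.re - ρ.re)) :=
        mul_le_mul_of_nonneg_right h4 (by positivity)
    _ = _ := by ring

theorem gg_diff {F H : ℂ → ℂ} (hF : DifferentiableOn ℂ F {s | 0 < s.re})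
    (hH : DifferentiableOn ℂ H {s | 0 < s.re}) (a : ℕ → ℂ) (N : ℕ) (κ : ℝ) (ρ : ℂ) :
    DifferentiableOn ℂ (gg F H a N κ ρ) {s | 0 < s.re} := by
  unfold gg
  have h1 : DifferentiableOn ℂ (fun s : ℂ => ((N + 1 : ℕ) : ℂ) ^ ((κ : ℂ) * (s - ρ))) {s | 0 < s.re} := by
    have : Differentiable ℂ (fun s : ℂ => ((N + 1 : ℕ) : ℂ) ^ ((κ : ℂ) * (s - ρ))) :=
      (((differentiable_id.sub_const ρ).const_mul (κ : ℂ))).const_cpow
        (Or.inl (by exact_mod_cast Nat.succ_ne_zero N))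
    exact this.differentiableOn
  have h2 : DifferentiableOn ℂ (fun s : ℂ => (s + 1) ^ 6) {s | 0 < s.re} := by
    fun_prop
  refine (((hF.mul (Pt_diff a N).differentiableOn).sub hH).mul h1).div h2 fun s hs => ?_
  refine pow_ne_zero _ fun h => ?_
  have h3 : s.re = -1 := by
    have : (s + 1).re = 0 := by rw [h]; simp
    simp at this
    linarith
  have h4 : 0 < s.re := hs
  linarith

theorem soft {a : ℕ → ℂ} (ha : ∀ n, ‖a n‖ ≤ 1) {F H : ℂ → ℂ}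
    (hF : DifferentiableOn ℂ F {s | 0 < s.re}) (hH : DifferentiableOn ℂ H {s | 0 < s.re})
    (hFb : ∀ σ : ℝ, 0 < σ → ∃ C : ℝ, ∀ s : ℂ, σ ≤ s.re → ‖F s‖ ≤ C * (1 + ‖s‖) ^ 4)
    (hHb : ∀ σ : ℝ, 0 < σ → ∃ C : ℝ, ∀ s : ℂ, σ ≤ s.re → ‖H s‖ ≤ C * (1 + ‖s‖) ^ 4)
    (hFH : ∀ s : ℂ, 3 ≤ s.re → F s * LSeries a s = H s)
    {ρ : ℂ} (h0 : 0 < ρ.re) (hρF : F ρ = 0) (hρH : H ρ ≠ 0) {ε : ℝ} (hε : 0 < ε) :
    ∀ᶠ R : ℕ in atTop, ∃ k : ℕ, 1 ≤ k ∧ k ≤ R ∧ (k : ℝ) * (R : ℝ) ^ (ρ.re - ε) < ‖Ts a k‖ := by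
  -- reduction to small ε
  wlog hεβ : ε < ρ.re generalizing ε with hw
  · filter_upwards [hw (ε := ρ.re / 2) (by linarith) (by linarith), eventually_ge_atTop 1] with R hR hR1
    obtain ⟨k, h1, h2, h3⟩ := hR
    refine ⟨k, h1, h2, lt_of_le_of_lt ?_ h3⟩
    refine mul_le_mul_of_nonneg_left ?_ (Nat.cast_nonneg k)
    exact Real.rpow_le_rpow_of_exponent_le (by exact_mod_cast hR1) (by linarith)
  set β : ℝ := ρ.re with hβ
  have hβ3 : β < 3 := by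
    by_contra h
    push Not at h
    have := hFH ρ h
    rw [hρF, zero_mul] at this
    exact hρH this.symm
  set σ0 : ℝ := ε / 2 with hσ0
  have hσ0p : 0 < σ0 := by rw [hσ0]; linarith
  have hbs : 0 < β - σ0 := by rw [hσ0]; linarith
  set κ : ℝ := (β - 3 * ε / 4) / (β - σ0) with hκ
  have hκ0 : 0 < κ := div_pos (by linarith) hbs
  have hκ1 : κ < 1 := by
    rw [hκ, div_lt_one hbs, hσ0]
    linarith
  have hκe : κ * (β - σ0) = β - 3 * ε / 4 := by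
    rw [hκ]
    field_simp
  set σ1 : ℝ := 3 / (1 - κ) with hσ1
  have hσ1e : (1 - κ) * σ1 = 3 := by
    rw [hσ1]
    field_simp [show (1 - κ) ≠ 0 by linarith]
  have hσ13 : 3 ≤ σ1 := by
    have : 0 ≤ κ * σ1 := mul_nonneg hκ0.le (by rw [hσ1]; exact div_nonneg (by norm_num) (by linarith))
    nlinarith
  obtain ⟨CF, hCF⟩ := hFb σ0 hσ0p
  obtain ⟨CH, hCH⟩ := hHb σ0 hσ0p
  obtain ⟨K, hK0, hK⟩ := Pt_right ha
  have hnn : ∀ C : ℝ, ∀ G : ℂ → ℂ, (∀ s : ℂ, σ0 ≤ s.re → ‖G s‖ ≤ C * (1 + ‖s‖) ^ 4) → 0 ≤ C := by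
    intro C G hG
    have h1 := (norm_nonneg _).trans (hG (σ0 : ℂ) (by simp))
    have h2 : 0 < (1 + ‖(σ0 : ℂ)‖) ^ 4 := by positivity
    by_contra h3
    push Not at h3
    nlinarith
  have hCF0 := hnn CF F hCF
  have hCH0 := hnn CH H hCH
  set Z : ℝ := ∑' k : ℕ, (k : ℝ) ^ (-σ0 - 1) with hZ
  have hZ0 : 0 ≤ Z := tsum_nonneg fun k => by positivity
  set CT : ℝ := 64 * (2 * Z * CF + CH + CF * K) with hCT
  have hlow : 0 < ‖H ρ‖ / ‖ρ + 1‖ ^ 6 := by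
    have h1 : 0 < ‖ρ + 1‖ := by
      have := Complex.re_le_norm (ρ + 1)
      simp only [add_re, one_re] at this
      linarith
    have h2 : 0 < ‖H ρ‖ := norm_pos_iff.2 hρH
    positivity
  -- for large R the power is small
  have hsmall : ∀ᶠ R : ℕ in atTop, CT * (R : ℝ) ^ (-(ε / 4)) < ‖H ρ‖ / ‖ρ + 1‖ ^ 6 := by
    have h1 : Tendsto (fun R : ℕ => CT * (R : ℝ) ^ (-(ε / 4))) atTop (𝓝 (CT * 0)) :=
      ((tendsto_rpow_neg_atTop (by linarith)).comp tendsto_natCast_atTop_atTop).const_mul CT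
    rw [mul_zero] at h1
    exact h1.eventually_lt_const hlow
  filter_upwards [hsmall, eventually_ge_atTop 1] with R hR hR1
  by_contra hcon
  push Not at hcon
  obtain ⟨N, rfl⟩ : ∃ N, R = N + 1 := ⟨R - 1, by omega⟩
  have hR0 : (0 : ℝ) < ((N + 1 : ℕ) : ℝ) := by positivity
  have hR1' : (1 : ℝ) ≤ ((N + 1 : ℕ) : ℝ) := by exact_mod_cast hR1
  set B : ℝ := ((N + 1 : ℕ) : ℝ) ^ (β - ε) with hB
  have hB1 : 1 ≤ B := Real.one_le_rpow hR1' (by linarith)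
  have hcd : closure (re ⁻¹' Ioo σ0 σ1) ⊆ {s : ℂ | 0 < s.re} := by
    have h1 : closure (re ⁻¹' Ioo σ0 σ1) ⊆ re ⁻¹' Icc σ0 σ1 :=
      closure_minimal (preimage_mono Ioo_subset_Icc_self) (isClosed_Icc.preimage continuous_re)
    exact h1.trans fun s hs => lt_of_lt_of_le hσ0p hs.1
  have hPL := PhragmenLindelof.vertical_strip (a := σ0) (b := σ1) (C := CT * ((N + 1 : ℕ) : ℝ) ^ (-(ε / 4)))
    (f := gg F H a N κ ρ) (z := ρ) (((gg_diff hF hH a N κ ρ).mono hcd).diffContOnCl) ?_ ?_ ?_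
    (by rw [← hβ]; linarith) (by rw [← hβ]; linarith)
  · -- value at ρ
    have e : gg F H a N κ ρ ρ = -H ρ / (ρ + 1) ^ 6 := by
      unfold gg
      rw [hρF, sub_self, mul_zero, cpow_zero]
      ring
    rw [e, norm_div, norm_neg, norm_pow] at hPL
    linarith
  · -- growth
    obtain ⟨Cc, hCc0, hCc⟩ := Pt_crude a N
    refine ⟨0, div_pos Real.pi_pos (by linarith), 0, ?_⟩
    refine Asymptotics.IsBigO.of_bound (64 * (CF * Cc + CH) * ((N + 1 : ℕ) : ℝ) ^ (κ * (σ1 - β))) ?_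
    refine eventually_inf_principal.2 (Eventually.of_forall fun s hs => ?_)
    have hs1 : σ0 < s.re ∧ s.re < σ1 := hs
    have hsr : 0 ≤ s.re := by linarith
    have h1 : ‖F s * Pt a N s - H s‖ ≤ (CF * Cc + CH) * (1 + ‖s‖) ^ 6 := by
      refine (norm_sub_le _ _).trans ?_
      rw [norm_mul]
      have h2 := hCF s hs1.1.le
      have h3 := (hCc s hsr).trans (mul_le_mul_of_nonneg_left (num_upper s) hCc0)
      have h4 := (hCH s hs1.1.le).trans (mul_le_mul_of_nonneg_left (pow46 s) hCH0)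
      calc _ ≤ (CF * (1 + ‖s‖) ^ 4) * (Cc * (1 + ‖s‖) ^ 2) + CH * (1 + ‖s‖) ^ 6 :=
            add_le_add (mul_le_mul h2 h3 (norm_nonneg _) (by positivity)) h4
        _ = _ := by ring
    have h5 := gg_norm F H a N κ ρ s hsr h1
    refine h5.trans ?_
    simp only [zero_mul, Real.exp_zero, norm_one, mul_one]
    refine mul_le_mul_of_nonneg_left ?_ (by positivity)
    refine Real.rpow_le_rpow_of_exponent_le hR1' ?_
    exact mul_le_mul_of_nonneg_left (by linarith) hκ0.le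
  · -- left line
    intro s hs
    have hsr : 0 ≤ s.re := by rw [hs]; exact hσ0p.le
    have h1 : ‖F s * Pt a N s - H s‖ ≤ ((2 * Z * CF + CH) * B) * (1 + ‖s‖) ^ 6 := by
      refine (norm_sub_le _ _).trans ?_
      rw [norm_mul]
      have h2 := hCF s hs.ge
      have h3 := Pt_left (a := a) hσ0p hs N (B := B) (by linarith) (fun k hk1 hk2 => hcon k hk1 hk2)
      have h3' : ‖Pt a N s‖ ≤ 2 * Z * (1 + ‖s‖) ^ 2 * B := by
        refine h3.trans ?_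
        have := num_upper s
        have hB0 : 0 ≤ B := by linarith
        gcongr
      have h4 := (hCH s hs.ge).trans (mul_le_mul_of_nonneg_left (pow46 s) hCH0)
      have h6 : CH * (1 + ‖s‖) ^ 6 ≤ CH * B * (1 + ‖s‖) ^ 6 := by
        have : 0 ≤ CH * (1 + ‖s‖) ^ 6 := by positivity
        nlinarith
      calc _ ≤ (CF * (1 + ‖s‖) ^ 4) * (2 * Z * (1 + ‖s‖) ^ 2 * B) + CH * B * (1 + ‖s‖) ^ 6 :=
            add_le_add (mul_le_mul h2 h3' (norm_nonneg _) (by positivity)) (h4.trans h6)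
        _ = _ := by ring
    refine (gg_norm F H a N κ ρ s hsr h1).trans ?_
    rw [hs, ← hβ]
    have e : κ * (σ0 - β) = -(β - 3 * ε / 4) := by linarith
    rw [e, hB]
    have e2 : ((N + 1 : ℕ) : ℝ) ^ (β - ε) * ((N + 1 : ℕ) : ℝ) ^ (-(β - 3 * ε / 4)) =
        ((N + 1 : ℕ) : ℝ) ^ (-(ε / 4)) := by
      rw [← Real.rpow_add hR0]
      congr 1
      ring
    calc 64 * ((2 * Z * CF + CH) * ((N + 1 : ℕ) : ℝ) ^ (β - ε)) * ((N + 1 : ℕ) : ℝ) ^ (-(β - 3 * ε / 4))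
        = 64 * (2 * Z * CF + CH) * (((N + 1 : ℕ) : ℝ) ^ (β - ε) * ((N + 1 : ℕ) : ℝ) ^ (-(β - 3 * ε / 4))) := by ring
      _ = 64 * (2 * Z * CF + CH) * ((N + 1 : ℕ) : ℝ) ^ (-(ε / 4)) := by rw [e2]
      _ ≤ CT * ((N + 1 : ℕ) : ℝ) ^ (-(ε / 4)) := by
          refine mul_le_mul_of_nonneg_right ?_ (by positivity)
          rw [hCT]
          have := mul_nonneg hCF0 hK0
          linarith
  · -- right line
    intro s hs
    have hs3 : 3 ≤ s.re := by rw [hs]; exact hσ13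
    have hsr : 0 ≤ s.re := by linarith
    have hs0 : σ0 ≤ s.re := by linarith
    have h1 : ‖F s * Pt a N s - H s‖ ≤ (CF * K * ((N + 1 : ℕ) : ℝ) ^ (2 - σ1)) * (1 + ‖s‖) ^ 6 := by
      rw [← hFH s hs3, ← mul_sub, norm_mul, norm_sub_rev]
      have h2 := (hCF s hs0).trans (mul_le_mul_of_nonneg_left (pow46 s) hCF0)
      have h3 := hK s hs3 N
      rw [hs] at h3
      calc _ ≤ (CF * (1 + ‖s‖) ^ 6) * (K * ((N + 1 : ℕ) : ℝ) ^ (2 - σ1)) :=
            mul_le_mul h2 h3 (norm_nonneg _) (by positivity)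
        _ = _ := by ring
    refine (gg_norm F H a N κ ρ s hsr h1).trans ?_
    rw [hs, ← hβ]
    have e2 : ((N + 1 : ℕ) : ℝ) ^ (2 - σ1) * ((N + 1 : ℕ) : ℝ) ^ (κ * (σ1 - β)) ≤
        ((N + 1 : ℕ) : ℝ) ^ (-(ε / 4)) := by
      rw [← Real.rpow_add hR0]
      refine Real.rpow_le_rpow_of_exponent_le hR1' ?_
      have : 0 ≤ κ * β := mul_nonneg hκ0.le h0.le
      nlinarith
    calc 64 * (CF * K * ((N + 1 : ℕ) : ℝ) ^ (2 - σ1)) * ((N + 1 : ℕ) : ℝ) ^ (κ * (σ1 - β))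
        = 64 * (CF * K) * (((N + 1 : ℕ) : ℝ) ^ (2 - σ1) * ((N + 1 : ℕ) : ℝ) ^ (κ * (σ1 - β))) := by ring
      _ ≤ 64 * (CF * K) * ((N + 1 : ℕ) : ℝ) ^ (-(ε / 4)) := mul_le_mul_of_nonneg_left e2 (by positivity)
      _ ≤ CT * ((N + 1 : ℕ) : ℝ) ^ (-(ε / 4)) := by
          refine mul_le_mul_of_nonneg_right ?_ (by positivity)
          rw [hCT]
          have h7 : 0 ≤ 2 * Z * CF := by positivity
          linarith

end

end Pool.Agent.N739.SN
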