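import Pool.Agent.N739.SN.Two

/-!
# A Parseval bound for the real part (helper739)
-/

set_option autoImplicit false

open Complex Filter Topology Set

namespace Pool.Agent.N739.SN

noncomputable section

theorem sum_sq_zero {a : ℕ → ℂ} {k N : ℕ} (hN : 2 * k < N) :
    ∑ j ∈ Finset.range N, Ss a k (j / N) * Ss a k (j / N) = 0 := by
  have h1 : ∀ j ∈ Finset.range N, Ss a k (j / N) * Ss a k (j / N) =
      ∑ n ∈ Finset.Icc 1 k, ∑ m ∈ Finset.Icc 1 k,
        ((k : ℂ) - n) * a n * (((k : ℂ) - m) * a m) * ee (((n : ℤ) + m : ℤ) * j / N) := by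
    intro j _
    rw [Ss_def, Finset.sum_mul_sum]
    refine Finset.sum_congr rfl fun n _ => Finset.sum_congr rfl fun m _ => ?_
    have e : ee (((n : ℤ) + m : ℤ) * j / N) = ee (n * (j / N)) * ee (m * (j / N)) := by
      rw [← ee_add]
      congr 1
      push_cast
      ring
    rw [e]
    ring
  rw [Finset.sum_congr rfl h1, Finset.sum_comm]
  refine Finset.sum_eq_zero fun n hn => ?_
  rw [Finset.sum_comm]
  refine Finset.sum_eq_zero fun m hm => ?_
  rw [Finset.mem_Icc] at hn hm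
  rw [← Finset.mul_sum, orth (by omega)]
  have : ¬ ((N : ℤ) ∣ (n : ℤ) + m) := by
    intro h
    have := Int.le_of_dvd (by omega) h
    omega
  rw [if_neg this, mul_zero]

theorem sum_norm_sq {a : ℕ → ℂ} {k N : ℕ} (hN : 2 * k < N) :
    ∑ j ∈ Finset.range N, Ss a k (j / N) * (starRingEnd ℂ) (Ss a k (j / N)) =
      N * ∑ n ∈ Finset.Icc 1 k, ((k : ℂ) - n) ^ 2 * (a n * (starRingEnd ℂ) (a n)) := by
  have h1 : ∀ j ∈ Finset.range N, Ss a k (j / N) * (starRingEnd ℂ) (Ss a k (j / N)) =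
      ∑ n ∈ Finset.Icc 1 k, ∑ m ∈ Finset.Icc 1 k,
        ((k : ℂ) - n) * a n * (((k : ℂ) - m) * (starRingEnd ℂ) (a m)) * ee (((n : ℤ) - m : ℤ) * j / N) := by
    intro j _
    rw [Ss_def, map_sum, Finset.sum_mul_sum]
    refine Finset.sum_congr rfl fun n _ => Finset.sum_congr rfl fun m _ => ?_
    have e : ee (((n : ℤ) - m : ℤ) * j / N) = ee (n * (j / N)) * ee (-(m * (j / N))) := by
      rw [← ee_add]
      congr 1
      push_cast
      ring
    have e1 : (starRingEnd ℂ) ((k : ℂ) - m) = (k : ℂ) - m := by simp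
    rw [e, map_mul, map_mul, ee_conj, e1]
    ring
  rw [Finset.sum_congr rfl h1, Finset.sum_comm, Finset.mul_sum]
  refine Finset.sum_congr rfl fun n hn => ?_
  rw [Finset.sum_comm]
  have h2 : ∀ m ∈ Finset.Icc 1 k, ∑ j ∈ Finset.range N,
      ((k : ℂ) - n) * a n * (((k : ℂ) - m) * (starRingEnd ℂ) (a m)) * ee (((n : ℤ) - m : ℤ) * j / N) =
      if m = n then ((k : ℂ) - n) * a n * (((k : ℂ) - n) * (starRingEnd ℂ) (a n)) * N else 0 := by
    intro m hm
    rw [Finset.mem_Icc] at hn hm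
    rw [← Finset.mul_sum, orth (by omega)]
    by_cases hnm : m = n
    · rw [if_pos hnm, hnm, if_pos (by simp)]
    · rw [if_neg hnm, if_neg, mul_zero]
      intro h
      have h0 : (n : ℤ) - m ≠ 0 := by omega
      have h3 := Int.le_of_dvd (abs_pos.2 h0) ((dvd_abs _ _).2 h)
      rcases le_or_gt 0 ((n : ℤ) - m) with h4 | h4
      · rw [abs_of_nonneg h4] at h3
        omega
      · rw [abs_of_neg h4] at h3
        omega
  rw [Finset.sum_congr rfl h2, Finset.sum_ite_eq' (Finset.Icc 1 k) n, if_pos hn]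
  ring

/-- Parseval for the real part -/
theorem parseval_re {a : ℕ → ℂ} {w : ℂ} {k : ℕ} {D : ℝ} (h : ∀ x : ℝ, |(w * Ss a k x).re| ≤ D) :
    ‖w‖ ^ 2 * ∑ n ∈ Finset.Icc 1 k, ((k : ℝ) - n) ^ 2 * ‖a n‖ ^ 2 ≤ 2 * D ^ 2 := by
  set N := 2 * k + 1 with hN
  have hN0 : (0 : ℝ) < N := by positivity
  have e1 := sum_sq_zero (a := a) (k := k) (N := N) (by omega)
  have e2 := sum_norm_sq (a := a) (k := k) (N := N) (by omega)
  have h1 : ∀ z : ℂ, 2 * (z.re) ^ 2 = ‖z‖ ^ 2 + (z * z).re := by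
    intro z
    rw [← Complex.normSq_eq_norm_sq, Complex.normSq_apply, Complex.mul_re]
    ring
  have h2 : ∑ j ∈ Finset.range N, 2 * ((w * Ss a k (j / N)).re) ^ 2 =
      N * (‖w‖ ^ 2 * ∑ n ∈ Finset.Icc 1 k, ((k : ℝ) - n) ^ 2 * ‖a n‖ ^ 2) := by
    have h3 : ∑ j ∈ Finset.range N, 2 * ((w * Ss a k (j / N)).re) ^ 2 =
        ∑ j ∈ Finset.range N, ‖w * Ss a k (j / N)‖ ^ 2 +
        (∑ j ∈ Finset.range N, (w * Ss a k (j / N)) * (w * Ss a k (j / N))).re := by
      rw [Complex.re_sum, ← Finset.sum_add_distrib]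
      exact Finset.sum_congr rfl fun j _ => h1 _
    have h4 : ∑ j ∈ Finset.range N, (w * Ss a k (j / N)) * (w * Ss a k (j / N)) = 0 := by
      have : ∑ j ∈ Finset.range N, (w * Ss a k (j / N)) * (w * Ss a k (j / N)) =
          w * w * ∑ j ∈ Finset.range N, Ss a k (j / N) * Ss a k (j / N) := by
        rw [Finset.mul_sum]
        exact Finset.sum_congr rfl fun j _ => by ring
      rw [this, e1, mul_zero]
    have h5 : ∑ j ∈ Finset.range N, ‖w * Ss a k (j / N)‖ ^ 2 =
        N * (‖w‖ ^ 2 * ∑ n ∈ Finset.Icc 1 k, ((k : ℝ) - n) ^ 2 * ‖a n‖ ^ 2) := by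
      have h6 : ((∑ j ∈ Finset.range N, ‖Ss a k (j / N)‖ ^ 2 : ℝ) : ℂ) =
          ((N * ∑ n ∈ Finset.Icc 1 k, ((k : ℝ) - n) ^ 2 * ‖a n‖ ^ 2 : ℝ) : ℂ) := by
        have e3 : ∀ z : ℂ, z * (starRingEnd ℂ) z = ((‖z‖ ^ 2 : ℝ) : ℂ) := by
          intro z
          rw [Complex.mul_conj, Complex.normSq_eq_norm_sq]
        simp only [e3] at e2
        push_cast at e2 ⊢
        exact e2
      have h7 : ∑ j ∈ Finset.range N, ‖Ss a k (j / N)‖ ^ 2 =
          N * ∑ n ∈ Finset.Icc 1 k, ((k : ℝ) - n) ^ 2 * ‖a n‖ ^ 2 := by exact_mod_cast h6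
      calc _ = ‖w‖ ^ 2 * ∑ j ∈ Finset.range N, ‖Ss a k (j / N)‖ ^ 2 := by
            rw [Finset.mul_sum]
            exact Finset.sum_congr rfl fun j _ => by rw [norm_mul, mul_pow]
        _ = _ := by
            rw [h7]
            ring
    rw [h3, h4, h5]
    simp
  have h8 : ∑ j ∈ Finset.range N, 2 * ((w * Ss a k (j / N)).re) ^ 2 ≤ N * (2 * D ^ 2) := by
    calc _ ≤ ∑ j ∈ Finset.range N, 2 * D ^ 2 := by
          refine Finset.sum_le_sum fun j _ => ?_
          have := h (j / N)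
          have h9 : ((w * Ss a k (j / N)).re) ^ 2 ≤ D ^ 2 := by
            rw [← sq_abs]
            exact pow_le_pow_left₀ (abs_nonneg _) this 2
          linarith
      _ = _ := by
          rw [Finset.sum_const, Finset.card_range, nsmul_eq_mul]
  rw [h2] at h8
  exact le_of_mul_le_mul_left h8 hN0

/-- squarefree numbers -/
theorem tele (y : ℕ) : ∑ d ∈ Finset.Icc 2 (y + 2), (1 : ℝ) / (d : ℝ) ^ 2 ≤ 3 / 4 - 1 / (y + 2) := by
  induction y with
  | zero => norm_num
  | succ y ih =>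
    rw [Finset.sum_Icc_succ_top (by omega)]
    have h : (1 : ℝ) / ((y + 1 + 2 : ℕ) : ℝ) ^ 2 ≤ 1 / (y + 2) - 1 / (y + 3) := by
      have h1 : (0 : ℝ) ≤ y := Nat.cast_nonneg y
      rw [div_sub_div _ _ (by positivity) (by positivity), div_le_div_iff₀ (by positivity) (by positivity)]
      push_cast
      nlinarith
    push_cast at ih h ⊢
    have e : (y : ℝ) + 1 + 2 = y + 3 := by ring
    have e' : (y : ℝ) + 2 + 1 = y + 3 := by ring
    rw [e] at h ⊢
    rw [e']
    linarith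

theorem sqf_count (y : ℕ) : (y : ℝ) / 4 ≤ ∑ n ∈ Finset.Icc 1 y, ‖((ArithmeticFunction.moebius n : ℤ) : ℂ)‖ ^ 2 := by
  have h1 : ∑ n ∈ Finset.Icc 1 y, ‖((ArithmeticFunction.moebius n : ℤ) : ℂ)‖ ^ 2 =
      (((Finset.Icc 1 y).filter Squarefree).card : ℝ) := by
    rw [Finset.card_filter]
    push_cast
    refine Finset.sum_congr rfl fun n _ => ?_
    by_cases h : Squarefree n
    · rw [if_pos h]
      have h2 := ArithmeticFunction.abs_moebius_eq_one_of_squarefree h
      rw [Complex.norm_intCast]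
      have : (|(ArithmeticFunction.moebius n : ℤ)| : ℤ) = 1 := h2
      rw [show |((ArithmeticFunction.moebius n : ℤ) : ℝ)| = ((|ArithmeticFunction.moebius n| : ℤ) : ℝ) by
        push_cast; rfl, this]
      norm_num
    · rw [if_neg h, ArithmeticFunction.moebius_eq_zero_of_not_squarefree h]
      simp
  rw [h1]
  have h2 : (((Finset.Icc 1 y).filter fun n => ¬ Squarefree n).card : ℝ) ≤ 3 / 4 * y := by
    have hsub : (Finset.Icc 1 y).filter (fun n => ¬ Squarefree n) ⊆
        (Finset.Icc 2 (y + 2)).biUnion fun d => (Finset.Icc 1 y).filter fun n => d ^ 2 ∣ n := by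
      intro n hn
      rw [Finset.mem_filter, Finset.mem_Icc] at hn
      obtain ⟨⟨h3, h4⟩, h5⟩ := hn
      rw [Nat.squarefree_iff_prime_squarefree] at h5
      push Not at h5
      obtain ⟨p, hp, hpn⟩ := h5
      rw [Finset.mem_biUnion]
      refine ⟨p, ?_, ?_⟩
      · rw [Finset.mem_Icc]
        refine ⟨hp.two_le, ?_⟩
        have h6 := Nat.le_of_dvd (by omega) hpn
        nlinarith [hp.two_le]
      · rw [Finset.mem_filter, Finset.mem_Icc]
        exact ⟨⟨h3, h4⟩, by rw [pow_two]; exact hpn⟩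
    have hcard : ∀ d : ℕ, 2 ≤ d → (((Finset.Icc 1 y).filter fun n => d ^ 2 ∣ n).card : ℝ) ≤ y * (1 / (d : ℝ) ^ 2) := by
      intro d hd
      have h3 : (Finset.Icc 1 y).filter (fun n => d ^ 2 ∣ n) =
          (Finset.range (y + 1)).filter (fun n => n ≠ 0 ∧ d ^ 2 ∣ n) := by
        ext n
        simp only [Finset.mem_filter, Finset.mem_Icc, Finset.mem_range]
        constructor
        · rintro ⟨⟨a, b⟩, c⟩
          exact ⟨by omega, by omega, c⟩
        · rintro ⟨a, b, c⟩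
          exact ⟨⟨by omega, by omega⟩, c⟩
      rw [h3, Nat.card_multiples']
      have : (((y / d ^ 2 : ℕ) : ℕ) : ℝ) ≤ (y : ℝ) / ((d ^ 2 : ℕ) : ℝ) := Nat.cast_div_le
      refine this.trans (le_of_eq ?_)
      push_cast
      ring
    calc (((Finset.Icc 1 y).filter fun n => ¬ Squarefree n).card : ℝ)
        ≤ (((Finset.Icc 2 (y + 2)).biUnion fun d => (Finset.Icc 1 y).filter fun n => d ^ 2 ∣ n).card : ℝ) := by
          exact_mod_cast Finset.card_le_card hsub
      _ ≤ ∑ d ∈ Finset.Icc 2 (y + 2), (((Finset.Icc 1 y).filter fun n => d ^ 2 ∣ n).card : ℝ) := by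
          exact_mod_cast Finset.card_biUnion_le
      _ ≤ ∑ d ∈ Finset.Icc 2 (y + 2), y * (1 / (d : ℝ) ^ 2) :=
          Finset.sum_le_sum fun d hd => hcard d (Finset.mem_Icc.1 hd).1
      _ ≤ 3 / 4 * y := by
          rw [← Finset.mul_sum]
          have h3 := tele y
          have h4 : (0 : ℝ) ≤ 1 / ((y : ℝ) + 2) := by positivity
          have h5 : (0 : ℝ) ≤ y := Nat.cast_nonneg y
          nlinarith
  have h3 : ((Finset.Icc 1 y).filter Squarefree).card + ((Finset.Icc 1 y).filter fun n => ¬ Squarefree n).card =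
      (Finset.Icc 1 y).card := by
    convert Finset.card_filter_add_card_filter_not (s := Finset.Icc 1 y) Squarefree
  rw [Nat.card_Icc] at h3
  have h4 : (((Finset.Icc 1 y).filter Squarefree).card : ℝ) +
      (((Finset.Icc 1 y).filter fun n => ¬ Squarefree n).card : ℝ) = y := by
    have : ((Finset.Icc 1 y).filter Squarefree).card + ((Finset.Icc 1 y).filter fun n => ¬ Squarefree n).card = y := by
      omega
    exact_mod_cast this
  linarith

end

end Pool.Agent.N739.SN
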