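import Mathlib

/-!
# A lower bound for Cesaro sums at every height, from one zero (helper739)
-/

set_option autoImplicit false

open Complex Filter Topology Set

namespace Pool.Agent.N739.SN

noncomputable section

/-- sum of the coefficients -/
def Ms (a : ℕ → ℂ) (k : ℕ) : ℂ := ∑ n ∈ Finset.Icc 1 k, a n

/-- the sum of `(k - n) a n` -/
def Ts (a : ℕ → ℂ) (k : ℕ) : ℂ := ∑ n ∈ Finset.Icc 1 k, ((k : ℂ) - n) * a n

theorem Ts_succ (a : ℕ → ℂ) (k : ℕ) : Ts a (k + 1) = Ts a k + Ms a k := by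
  unfold Ts Ms
  rw [Finset.sum_Icc_succ_top (by omega)]
  push_cast
  rw [sub_self, zero_mul, add_zero, ← Finset.sum_add_distrib]
  refine Finset.sum_congr rfl fun n _ => by ring

theorem Ms_succ (a : ℕ → ℂ) (k : ℕ) : Ms a (k + 1) = Ms a k + a (k + 1) := by
  unfold Ms
  rw [Finset.sum_Icc_succ_top (by omega)]

theorem Ts_norm {a : ℕ → ℂ} (ha : ∀ n, ‖a n‖ ≤ 1) (k : ℕ) : ‖Ts a k‖ ≤ (k : ℝ) ^ 2 := by
  unfold Ts
  refine (norm_sum_le _ _).trans ?_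
  calc _ ≤ ∑ n ∈ Finset.Icc 1 k, (k : ℝ) := by
        refine Finset.sum_le_sum fun n hn => ?_
        rw [Finset.mem_Icc] at hn
        rw [norm_mul]
        have h1 : ‖(k : ℂ) - n‖ ≤ k := by
          rw [show (k : ℂ) - n = ((k - n : ℕ) : ℂ) by push_cast [hn.2]; ring, Complex.norm_natCast]
          exact_mod_cast Nat.sub_le _ _
        calc _ ≤ (k : ℝ) * 1 := mul_le_mul h1 (ha n) (norm_nonneg _) (Nat.cast_nonneg _)
          _ = k := mul_one _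
    _ = (k : ℝ) ^ 2 := by
        rw [Finset.sum_const, Nat.card_Icc]
        simp
        ring

/-- Abel summation twice -/
theorem abel2 (a ψ : ℕ → ℂ) (N : ℕ) : ∑ n ∈ Finset.Icc 1 (N + 1), a n * ψ n =
    ∑ k ∈ Finset.Icc 1 N, Ts a (k + 1) * (ψ k - 2 * ψ (k + 1) + ψ (k + 2)) +
      Ts a (N + 2) * ψ (N + 1) - Ts a (N + 1) * ψ (N + 2) := by
  induction N with
  | zero =>
    have h1 := Ts_succ a 1
    have h2 := Ts_succ a 0
    have h3 := Ms_succ a 0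
    have h4 : Ts a 0 = 0 := by simp [Ts]
    have h5 : Ms a 0 = 0 := by simp [Ms]
    simp only [zero_add] at *
    rw [h4, h5] at h2
    rw [h5] at h3
    simp only [zero_add, add_zero] at *
    rw [h2] at h1
    simp [h1, h2, h3]
  | succ N ih =>
    rw [Finset.sum_Icc_succ_top (by omega), ih, Finset.sum_Icc_succ_top (by omega)]
    have h1 := Ts_succ a (N + 2)
    have h2 := Ts_succ a (N + 1)
    have h3 := Ms_succ a (N + 1)
    have e1 : N + 1 + 1 = N + 2 := rfl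
    have e2 : N + 2 + 1 = N + 3 := rfl
    have e3 : N + 1 + 2 = N + 3 := rfl
    rw [e1] at *
    rw [e2] at h1
    rw [e3]
    have h4 : a (N + 2) = Ts a (N + 3) - 2 * Ts a (N + 2) + Ts a (N + 1) := by
      rw [h1, h3]
      linear_combination h2
    rw [h4]
    ring

theorem hasDeriv_pow (z : ℂ) {x : ℝ} (hx : 0 < x) :
    HasDerivAt (fun y : ℝ => (y : ℂ) ^ (-z)) (-z * (x : ℂ) ^ (-z - 1)) x := by
  have h := ((hasDerivAt_id (x : ℂ)).cpow_const (c := -z) (Or.inl (by simpa using hx))).comp_ofReal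
  simpa using h

theorem diff1 {z : ℂ} (hz : -1 ≤ z.re) {x : ℝ} (hx : 0 < x) :
    ‖((x + 1 : ℝ) : ℂ) ^ (-z) - (x : ℂ) ^ (-z)‖ ≤ ‖z‖ * x ^ (-z.re - 1) := by
  have h := Convex.norm_image_sub_le_of_norm_hasDerivWithin_le (f := fun y : ℝ => (y : ℂ) ^ (-z))
    (f' := fun y : ℝ => -z * (y : ℂ) ^ (-z - 1)) (C := ‖z‖ * x ^ (-z.re - 1)) (s := Icc x (x + 1))
    (x := x) (y := x + 1) (fun y hy => (hasDeriv_pow z (hx.trans_le hy.1)).hasDerivWithinAt)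
    (fun y hy => ?_) (convex_Icc _ _) (by simp) (by simp)
  · simpa using h
  · have hy0 : 0 < y := hx.trans_le hy.1
    rw [norm_mul, norm_neg, norm_cpow_eq_rpow_re_of_pos hy0]
    refine mul_le_mul_of_nonneg_left ?_ (norm_nonneg _)
    have e : (-z - 1).re = -z.re - 1 := by simp
    rw [e]
    exact Real.rpow_le_rpow_of_nonpos hx hy.1 (by linarith)

theorem diff2 {z : ℂ} (hz : 0 ≤ z.re) {x : ℝ} (hx : 0 < x) :
    ‖(x : ℂ) ^ (-z) - 2 * ((x + 1 : ℝ) : ℂ) ^ (-z) + ((x + 2 : ℝ) : ℂ) ^ (-z)‖ ≤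
      ‖z‖ * ‖z + 1‖ * x ^ (-z.re - 2) := by
  have h := Convex.norm_image_sub_le_of_norm_hasDerivWithin_le
    (f := fun y : ℝ => ((y + 1 : ℝ) : ℂ) ^ (-z) - (y : ℂ) ^ (-z))
    (f' := fun y : ℝ => -z * ((y + 1 : ℝ) : ℂ) ^ (-z - 1) - -z * (y : ℂ) ^ (-z - 1))
    (C := ‖z‖ * ‖z + 1‖ * x ^ (-z.re - 2)) (s := Icc x (x + 1))
    (x := x) (y := x + 1) (fun y hy => ?_) (fun y hy => ?_) (convex_Icc _ _) (by simp) (by simp)
  · have e : (((x + 1 : ℝ) + 1 : ℝ) : ℂ) ^ (-z) - ((x + 1 : ℝ) : ℂ) ^ (-z) -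
        (((x + 1 : ℝ) : ℂ) ^ (-z) - (x : ℂ) ^ (-z)) =
        (x : ℂ) ^ (-z) - 2 * ((x + 1 : ℝ) : ℂ) ^ (-z) + ((x + 2 : ℝ) : ℂ) ^ (-z) := by
      rw [show (x + 1 + 1 : ℝ) = x + 2 by ring]
      ring
    have h' : ‖(((x + 1 : ℝ) + 1 : ℝ) : ℂ) ^ (-z) - ((x + 1 : ℝ) : ℂ) ^ (-z) -
        (((x + 1 : ℝ) : ℂ) ^ (-z) - (x : ℂ) ^ (-z))‖ ≤ ‖z‖ * ‖z + 1‖ * x ^ (-z.re - 2) * ‖x + 1 - x‖ := h
    rw [e] at h'
    refine h'.trans (le_of_eq ?_)
    rw [show x + 1 - x = 1 by ring]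
    simp
  · have hy0 : 0 < y := hx.trans_le hy.1
    have h1 := (hasDeriv_pow z (x := y + 1) (by linarith)).comp_add_const y 1
    exact (h1.sub (hasDeriv_pow z hy0)).hasDerivWithinAt
  · have hy0 : 0 < y := hx.trans_le hy.1
    have h1 := diff1 (z := z + 1) (by simp; linarith) hy0
    have e : -z * ((y + 1 : ℝ) : ℂ) ^ (-z - 1) - -z * (y : ℂ) ^ (-z - 1) =
        -z * (((y + 1 : ℝ) : ℂ) ^ (-(z + 1)) - (y : ℂ) ^ (-(z + 1))) := by
      rw [show -(z + 1) = -z - 1 by ring]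
      ring
    rw [e, norm_mul, norm_neg, mul_assoc]
    refine mul_le_mul_of_nonneg_left (h1.trans ?_) (norm_nonneg _)
    refine mul_le_mul_of_nonneg_left ?_ (norm_nonneg _)
    have e2 : -(z + 1).re - 1 = -z.re - 2 := by
      simp
      ring
    rw [e2]
    exact Real.rpow_le_rpow_of_nonpos hx hy.1 (by linarith)

/-- the truncated series -/
def Pt (a : ℕ → ℂ) (N : ℕ) (s : ℂ) : ℂ := ∑ k ∈ Finset.Icc 1 N, Ts a (k + 1) *
  ((k : ℂ) ^ (-s) - 2 * ((k + 1 : ℕ) : ℂ) ^ (-s) + ((k + 2 : ℕ) : ℂ) ^ (-s))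

theorem Pt_diff (a : ℕ → ℂ) (N : ℕ) : Differentiable ℂ (Pt a N) := by
  unfold Pt
  refine Differentiable.fun_sum fun k hk => ?_
  rw [Finset.mem_Icc] at hk
  have h : ∀ n : ℕ, n ≠ 0 → Differentiable ℂ (fun s : ℂ => (n : ℂ) ^ (-s)) := by
    intro n hn
    exact (differentiable_id.neg).const_cpow (Or.inl (by exact_mod_cast hn))
  exact ((((h k (by omega)).sub ((h (k + 1) (by omega)).const_mul 2)).add (h (k + 2) (by omega))).const_mul _)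

theorem Pt_term {s : ℂ} (hs : 0 ≤ s.re) {k : ℕ} (hk : 1 ≤ k) :
    ‖(k : ℂ) ^ (-s) - 2 * ((k + 1 : ℕ) : ℂ) ^ (-s) + ((k + 2 : ℕ) : ℂ) ^ (-s)‖ ≤
      ‖s‖ * ‖s + 1‖ * (k : ℝ) ^ (-s.re - 2) := by
  have h := diff2 hs (x := (k : ℝ)) (by exact_mod_cast hk)
  push_cast at h ⊢
  exact h

/-- the bound on the left line -/
theorem Pt_left {a : ℕ → ℂ} {s : ℂ} {σ : ℝ} (hσ : 0 < σ) (hs : s.re = σ) (N : ℕ) {B : ℝ} (hB : 0 ≤ B)
    (h : ∀ k : ℕ, 1 ≤ k → k ≤ N + 1 → ‖Ts a k‖ ≤ k * B) :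
    ‖Pt a N s‖ ≤ 2 * (∑' k : ℕ, (k : ℝ) ^ (-σ - 1)) * (‖s‖ * ‖s + 1‖) * B := by
  unfold Pt
  refine (norm_sum_le _ _).trans ?_
  have hsum : Summable fun k : ℕ => (k : ℝ) ^ (-σ - 1) := Real.summable_nat_rpow.2 (by linarith)
  have h1 : ∀ k ∈ Finset.Icc 1 N, ‖Ts a (k + 1) *
      ((k : ℂ) ^ (-s) - 2 * ((k + 1 : ℕ) : ℂ) ^ (-s) + ((k + 2 : ℕ) : ℂ) ^ (-s))‖ ≤
      2 * B * (‖s‖ * ‖s + 1‖) * (k : ℝ) ^ (-σ - 1) := by
    intro k hk
    rw [Finset.mem_Icc] at hk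
    have hk0 : (0 : ℝ) < k := by exact_mod_cast hk.1
    have hk1 : (1 : ℝ) ≤ k := by exact_mod_cast hk.1
    rw [norm_mul]
    have h2 := h (k + 1) (by omega) (by omega)
    have h3 := Pt_term (s := s) (by rw [hs]; exact hσ.le) hk.1
    have h4 : ‖Ts a (k + 1)‖ ≤ 2 * k * B := by
      refine h2.trans ?_
      push_cast
      nlinarith
    calc _ ≤ (2 * k * B) * (‖s‖ * ‖s + 1‖ * (k : ℝ) ^ (-s.re - 2)) :=
          mul_le_mul h4 h3 (norm_nonneg _) (by positivity)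
      _ = 2 * B * (‖s‖ * ‖s + 1‖) * ((k : ℝ) * (k : ℝ) ^ (-s.re - 2)) := by ring
      _ = _ := by
          congr 1
          rw [hs]
          nth_rewrite 1 [← Real.rpow_one (k : ℝ)]
          rw [← Real.rpow_add hk0]
          congr 1
          ring
  refine (Finset.sum_le_sum h1).trans ?_
  rw [← Finset.mul_sum]
  have h5 : ∑ k ∈ Finset.Icc 1 N, (k : ℝ) ^ (-σ - 1) ≤ ∑' k : ℕ, (k : ℝ) ^ (-σ - 1) :=
    hsum.sum_le_tsum _ fun k _ => by positivity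
  calc _ ≤ 2 * B * (‖s‖ * ‖s + 1‖) * ∑' k : ℕ, (k : ℝ) ^ (-σ - 1) :=
        mul_le_mul_of_nonneg_left h5 (by positivity)
    _ = _ := by ring

/-- a crude bound in the half-plane -/
theorem Pt_crude (a : ℕ → ℂ) (N : ℕ) : ∃ C : ℝ, 0 ≤ C ∧ ∀ s : ℂ, 0 ≤ s.re → ‖Pt a N s‖ ≤ C * (‖s‖ * ‖s + 1‖) := by
  refine ⟨∑ k ∈ Finset.Icc 1 N, ‖Ts a (k + 1)‖, Finset.sum_nonneg fun _ _ => norm_nonneg _, fun s hs => ?_⟩
  unfold Pt
  refine (norm_sum_le _ _).trans ?_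
  rw [Finset.sum_mul]
  refine Finset.sum_le_sum fun k hk => ?_
  rw [Finset.mem_Icc] at hk
  rw [norm_mul]
  refine mul_le_mul_of_nonneg_left ((Pt_term hs hk.1).trans ?_) (norm_nonneg _)
  have hk1 : (1 : ℝ) ≤ k := by exact_mod_cast hk.1
  have : (k : ℝ) ^ (-s.re - 2) ≤ 1 := Real.rpow_le_one_of_one_le_of_nonpos hk1 (by linarith)
  calc _ ≤ ‖s‖ * ‖s + 1‖ * 1 := mul_le_mul_of_nonneg_left this (by positivity)
    _ = _ := mul_one _

/-- the bound on the right line -/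
theorem Pt_right {a : ℕ → ℂ} (ha : ∀ n, ‖a n‖ ≤ 1) : ∃ K : ℝ, 0 ≤ K ∧ ∀ s : ℂ, 3 ≤ s.re → ∀ N : ℕ,
    ‖LSeries a s - Pt a N s‖ ≤ K * ((N + 1 : ℕ) : ℝ) ^ (2 - s.re) := by
  have hZ : Summable fun n : ℕ => ((n + 1 : ℕ) : ℝ) ^ (-2 : ℝ) :=
    (summable_nat_add_iff 1 (f := fun n : ℕ => (n : ℝ) ^ (-2 : ℝ))).2 (Real.summable_nat_rpow.2 (by norm_num))
  refine ⟨(∑' n : ℕ, ((n + 1 : ℕ) : ℝ) ^ (-2 : ℝ)) + 5, by positivity, fun s hs N => ?_⟩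
  have hsumm : LSeriesSummable a s := by
    refine LSeriesSummable_of_bounded_of_one_lt_re (m := 1) (fun n _ => ha n) (by linarith)
  have hpart := hsumm.sum_add_tsum_nat_add (N + 2)
  have e0 : ∑ n ∈ Finset.range (N + 2), LSeries.term a s n =
      ∑ n ∈ Finset.Icc 1 (N + 1), a n * (n : ℂ) ^ (-s) := by
    rw [Finset.range_eq_Ico, Finset.sum_eq_sum_Ico_succ_bot (by omega)]
    simp only [LSeries.term_zero, zero_add]
    have : Finset.Ico 1 (N + 2) = Finset.Icc 1 (N + 1) := by ext; simp; omega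
    rw [this]
    refine Finset.sum_congr rfl fun n hn => ?_
    rw [Finset.mem_Icc] at hn
    rw [LSeries.term_of_ne_zero (by omega), cpow_neg, div_eq_mul_inv]
  have e1 : LSeries a s - Pt a N s = (∑' n : ℕ, LSeries.term a s (n + (N + 2))) +
      (Ts a (N + 2) * ((N + 1 : ℕ) : ℂ) ^ (-s) - Ts a (N + 1) * ((N + 2 : ℕ) : ℂ) ^ (-s)) := by
    have e2 : LSeries a s = ∑' n : ℕ, LSeries.term a s n := rfl
    rw [e2, ← hpart, e0, abel2 a (fun n => (n : ℂ) ^ (-s)) N]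
    unfold Pt
    ring
  have hN0 : (0 : ℝ) < ((N + 1 : ℕ) : ℝ) := by positivity
  have hN1 : (1 : ℝ) ≤ ((N + 1 : ℕ) : ℝ) := by exact_mod_cast Nat.succ_le_succ (Nat.zero_le N)
  have ht : ∀ n : ℕ, ‖LSeries.term a s (n + (N + 2))‖ ≤
      ((n + 1 : ℕ) : ℝ) ^ (-2 : ℝ) * ((N + 1 : ℕ) : ℝ) ^ (2 - s.re) := by
    intro n
    have hne : n + (N + 2) ≠ 0 := by omega
    have hp : (0 : ℝ) < ((n + (N + 2) : ℕ) : ℝ) := by positivity
    rw [LSeries.term_of_ne_zero hne, norm_div, Complex.norm_natCast_cpow_of_pos (by omega)]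
    have h1 : ‖a (n + (N + 2))‖ / ((n + (N + 2) : ℕ) : ℝ) ^ s.re ≤
        ((n + (N + 2) : ℕ) : ℝ) ^ (-s.re) := by
      rw [Real.rpow_neg hp.le, ← one_div]
      exact div_le_div_of_nonneg_right (ha _) (by positivity)
    refine h1.trans ?_
    have h2 : ((n + (N + 2) : ℕ) : ℝ) ^ (-s.re) =
        ((n + (N + 2) : ℕ) : ℝ) ^ (-2 : ℝ) * ((n + (N + 2) : ℕ) : ℝ) ^ (2 - s.re) := by
      rw [← Real.rpow_add hp]
      congr 1
      ring
    rw [h2]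
    refine mul_le_mul ?_ ?_ (by positivity) (by positivity)
    · exact Real.rpow_le_rpow_of_nonpos (by positivity) (by push_cast; linarith) (by norm_num)
    · exact Real.rpow_le_rpow_of_nonpos (by positivity) (by push_cast; linarith) (by linarith)
  have htail : ‖∑' n : ℕ, LSeries.term a s (n + (N + 2))‖ ≤
      (∑' n : ℕ, ((n + 1 : ℕ) : ℝ) ^ (-2 : ℝ)) * ((N + 1 : ℕ) : ℝ) ^ (2 - s.re) := by
    rw [← tsum_mul_right]
    exact tsum_of_norm_bounded (hZ.mul_right _).hasSum ht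
  have hb1 : ‖Ts a (N + 2) * ((N + 1 : ℕ) : ℂ) ^ (-s)‖ ≤ 4 * ((N + 1 : ℕ) : ℝ) ^ (2 - s.re) := by
    rw [norm_mul, Complex.norm_natCast_cpow_of_pos (by omega)]
    have h1 := Ts_norm ha (N + 2)
    have h2 : ((N + 2 : ℕ) : ℝ) ^ 2 ≤ 4 * ((N + 1 : ℕ) : ℝ) ^ (2 : ℝ) := by
      rw [Real.rpow_two]
      push_cast
      have : (0 : ℝ) ≤ N := Nat.cast_nonneg N
      nlinarith
    calc _ ≤ (4 * ((N + 1 : ℕ) : ℝ) ^ (2 : ℝ)) * ((N + 1 : ℕ) : ℝ) ^ (-s).re :=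
          mul_le_mul_of_nonneg_right (h1.trans h2) (by positivity)
      _ = _ := by
          rw [mul_assoc, ← Real.rpow_add hN0]
          congr 1
  have hb2 : ‖Ts a (N + 1) * ((N + 2 : ℕ) : ℂ) ^ (-s)‖ ≤ ((N + 1 : ℕ) : ℝ) ^ (2 - s.re) := by
    rw [norm_mul, Complex.norm_natCast_cpow_of_pos (by omega)]
    have h1 := Ts_norm ha (N + 1)
    have h3 : ((N + 2 : ℕ) : ℝ) ^ (-s).re ≤ ((N + 1 : ℕ) : ℝ) ^ (-s).re :=
      Real.rpow_le_rpow_of_nonpos hN0 (by push_cast; linarith) (by simp; linarith)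
    calc _ ≤ ((N + 1 : ℕ) : ℝ) ^ 2 * ((N + 1 : ℕ) : ℝ) ^ (-s).re :=
          mul_le_mul h1 h3 (by positivity) (by positivity)
      _ = _ := by
          rw [← Real.rpow_natCast, ← Real.rpow_add hN0]
          congr 1
  rw [e1]
  refine (norm_add_le _ _).trans ?_
  have := norm_sub_le (Ts a (N + 2) * ((N + 1 : ℕ) : ℂ) ^ (-s)) (Ts a (N + 1) * ((N + 2 : ℕ) : ℂ) ^ (-s))
  linarith

end

end Pool.Agent.N739.SN
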