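import Pool.Agent.N739.SN.Fej

/-!
# From one-sided to two-sided bounds (helper739)
-/

set_option autoImplicit false

open Complex Filter Topology Set

namespace Pool.Agent.N739.SN

noncomputable section

/-- the part over the odd integers -/
def od (a : ℕ → ℂ) (n : ℕ) : ℂ := if Odd n then a n else 0

theorem od_shift (a : ℕ → ℂ) (k : ℕ) (x : ℝ) : Ss (od a) k (x + 1 / 2) = -Ss (od a) k x := by
  rw [Ss_def, Ss_def, ← Finset.sum_neg_distrib]
  refine Finset.sum_congr rfl fun n _ => ?_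
  unfold od
  by_cases hn : Odd n
  · rw [if_pos hn]
    obtain ⟨m, rfl⟩ := hn
    have e : ee (((2 * m + 1 : ℕ) : ℝ) * (x + 1 / 2)) = -ee (((2 * m + 1 : ℕ) : ℝ) * x) := by
      rw [show ((2 * m + 1 : ℕ) : ℝ) * (x + 1 / 2) = ((2 * m + 1 : ℕ) : ℝ) * x + ((m : ℕ) + 1 / 2) by
        push_cast; ring, ee_add, ee_add, ee_nat, ee_half]
      ring
    rw [e]
    ring
  · rw [if_neg hn]
    simp

/-- splitting a sum by parity -/
theorem parity_split (f : ℕ → ℂ) (k : ℕ) : ∑ n ∈ Finset.Icc 1 k, f n =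
    ∑ n ∈ Finset.Icc 1 k, (if Odd n then f n else 0) + ∑ m ∈ Finset.Icc 1 (k / 2), f (2 * m) := by
  have h1 : ∑ n ∈ Finset.Icc 1 k, f n = ∑ n ∈ Finset.Icc 1 k, (if Odd n then f n else 0) +
      ∑ n ∈ Finset.Icc 1 k, (if Odd n then 0 else f n) := by
    rw [← Finset.sum_add_distrib]
    refine Finset.sum_congr rfl fun n _ => ?_
    by_cases h : Odd n <;> simp [h]
  rw [h1]
  congr 1
  rw [← Finset.sum_filter_add_sum_filter_not (Finset.Icc 1 k) (fun n => Odd n)]
  have h2 : ∑ n ∈ (Finset.Icc 1 k).filter (fun n => Odd n), (if Odd n then (0 : ℂ) else f n) = 0 := by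
    refine Finset.sum_eq_zero fun n hn => ?_
    rw [Finset.mem_filter] at hn
    rw [if_pos hn.2]
  rw [h2, zero_add]
  symm
  refine Finset.sum_nbij' (fun m => 2 * m) (fun n => n / 2) ?_ ?_ ?_ ?_ ?_
  · intro m hm
    rw [Finset.mem_Icc] at hm
    rw [Finset.mem_filter, Finset.mem_Icc]
    refine ⟨⟨by omega, by omega⟩, ?_⟩
    rw [Nat.not_odd_iff_even]
    exact even_two_mul m
  · intro n hn
    rw [Finset.mem_filter, Finset.mem_Icc, Nat.not_odd_iff_even] at hn
    obtain ⟨⟨h1, h2⟩, m, rfl⟩ := hn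
    rw [Finset.mem_Icc]
    omega
  · intro m _
    show 2 * m / 2 = m
    omega
  · intro n hn
    rw [Finset.mem_filter, Finset.mem_Icc, Nat.not_odd_iff_even] at hn
    obtain ⟨_, m, rfl⟩ := hn
    show 2 * ((m + m) / 2) = m + m
    omega
  · intro m _
    rw [if_neg]
    rw [Nat.not_odd_iff_even]
    exact even_two_mul m

/-- the condition at the even integers -/
def TwoRule (a : ℕ → ℂ) : Prop := ∀ m : ℕ, 1 ≤ m → a (2 * m) = -od a m

/-- the relation between the sums -/
theorem split {a : ℕ → ℂ} (ha : TwoRule a) (k : ℕ) (x : ℝ) :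
    Ss a k x = Ss (od a) k x - (Ss (od a) (k / 2) (2 * x) + Ss (od a) ((k + 1) / 2) (2 * x)) := by
  rw [Ss_def a, parity_split]
  have h1 : ∑ n ∈ Finset.Icc 1 k, (if Odd n then ((k : ℂ) - n) * (a n * ee (n * x)) else 0) = Ss (od a) k x := by
    rw [Ss_def]
    refine Finset.sum_congr rfl fun n _ => ?_
    unfold od
    by_cases h : Odd n <;> simp [h]
  have h2 : Ss (od a) ((k + 1) / 2) (2 * x) = ∑ m ∈ Finset.Icc 1 (k / 2),
      ((((k + 1) / 2 : ℕ) : ℂ) - m) * (od a m * ee (m * (2 * x))) := by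
    rw [Ss_def]
    symm
    refine Finset.sum_subset (Finset.Icc_subset_Icc_right (by omega)) fun m hm hm2 => ?_
    rw [Finset.mem_Icc] at hm hm2
    have : m = (k + 1) / 2 := by omega
    rw [← this, sub_self, zero_mul]
  rw [h1, h2, Ss_def (od a) (k / 2), ← Finset.sum_add_distrib, sub_eq_add_neg, ← Finset.sum_neg_distrib]
  congr 1
  refine Finset.sum_congr rfl fun m hm => ?_
  rw [Finset.mem_Icc] at hm
  rw [ha m hm.1]
  have e1 : ee (((2 * m : ℕ) : ℝ) * x) = ee (m * (2 * x)) := by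
    congr 1
    push_cast
    ring
  have e2 : (k : ℂ) = ((k / 2 : ℕ) : ℂ) + (((k + 1) / 2 : ℕ) : ℂ) := by
    have : k = k / 2 + (k + 1) / 2 := by omega
    exact_mod_cast this
  rw [e1, e2]
  push_cast
  ring

/-- the recursion of the odd part -/
theorem od_bound {a : ℕ → ℂ} (ha : TwoRule a) {w : ℂ} {B : ℝ} (hB : 0 ≤ B) {R : ℕ}
    (h : ∀ k ≤ R, ∀ x : ℝ, (w * Ss a k x).re ≤ k * B) :
    ∀ k ≤ R, ∀ x : ℝ, |(w * Ss (od a) k x).re| ≤ k * B * Nat.clog 2 k := by
  intro k
  induction k using Nat.strong_induction_on with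
  | _ k ih =>
    intro hk x
    -- the upper bound suffices
    have hup : ∀ y : ℝ, (w * Ss (od a) k y).re ≤ k * B * Nat.clog 2 k := by
      intro y
      rcases Nat.lt_or_ge k 2 with h2 | h2
      · have h0 : Ss (od a) k y = 0 := by
          rw [Ss_def]
          refine Finset.sum_eq_zero fun n hn => ?_
          rw [Finset.mem_Icc] at hn
          have h3 : n = k := by omega
          rw [h3, sub_self, zero_mul]
        rw [h0, mul_zero, Complex.zero_re]
        positivity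
      · have e := split ha k y
        have e2 : (w * Ss (od a) k y).re = (w * Ss a k y).re + (w * Ss (od a) (k / 2) (2 * y)).re +
            (w * Ss (od a) ((k + 1) / 2) (2 * y)).re := by
          rw [e, mul_sub, mul_add]
          simp only [Complex.sub_re, Complex.add_re]
          ring
        have h3 := le_trans (le_abs_self _) (ih (k / 2) (by omega) (by omega) (2 * y))
        have h4 := le_trans (le_abs_self _) (ih ((k + 1) / 2) (by omega) (by omega) (2 * y))
        have h5 := h k hk y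
        have hc : Nat.clog 2 k = Nat.clog 2 ((k + 1) / 2) + 1 := by
          rw [Nat.clog_of_two_le (by norm_num) h2]
          rfl
        have hm : Nat.clog 2 (k / 2) ≤ Nat.clog 2 ((k + 1) / 2) := Nat.clog_mono_right 2 (by omega)
        have hm' : (Nat.clog 2 (k / 2) : ℝ) ≤ Nat.clog 2 ((k + 1) / 2) := by exact_mod_cast hm
        have hk2 : (k : ℝ) = ((k / 2 : ℕ) : ℝ) + (((k + 1) / 2 : ℕ) : ℝ) := by
          have : k = k / 2 + (k + 1) / 2 := by omega
          exact_mod_cast this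
        rw [e2, hc]
        have h6 : ((k / 2 : ℕ) : ℝ) * B * Nat.clog 2 (k / 2) ≤ ((k / 2 : ℕ) : ℝ) * B * Nat.clog 2 ((k + 1) / 2) :=
          mul_le_mul_of_nonneg_left hm' (by positivity)
        push_cast
        calc _ ≤ (k : ℝ) * B + ((k / 2 : ℕ) : ℝ) * B * Nat.clog 2 ((k + 1) / 2) +
              (((k + 1) / 2 : ℕ) : ℝ) * B * Nat.clog 2 ((k + 1) / 2) := by linarith
          _ = (k : ℝ) * B + (((k / 2 : ℕ) : ℝ) + (((k + 1) / 2 : ℕ) : ℝ)) * B * Nat.clog 2 ((k + 1) / 2) := by ring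
          _ = _ := by
              rw [← hk2]
              ring
    have h1 := hup x
    have h2 := hup (x + 1 / 2)
    rw [od_shift, mul_neg, Complex.neg_re] at h2
    exact abs_le.2 ⟨by linarith, h1⟩

/-- two-sided bounds for the Cesaro sums -/
theorem two_sided {a : ℕ → ℂ} (ha : TwoRule a) {w : ℂ} {B : ℝ} (hB : 0 ≤ B) {R : ℕ} (hR : 0 < R)
    (h : ∀ x : ℝ, (w * Fs a R x).re ≤ B) :
    ∀ k ≤ R, ∀ x : ℝ, |(w * Ss a k x).re| ≤ 2 * k * B * Nat.clog 2 R := by
  intro k hk x
  have h1 := od_bound ha hB (R := R) (fun k hk x => fejer_bound hk hR h x)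
  have e := split ha k x
  have e2 : (w * Ss a k x).re = (w * Ss (od a) k x).re - ((w * Ss (od a) (k / 2) (2 * x)).re +
      (w * Ss (od a) ((k + 1) / 2) (2 * x)).re) := by
    rw [e, mul_sub, mul_add]
    simp only [Complex.sub_re, Complex.add_re]
  have hmono : ∀ l ≤ R, (l : ℝ) * B * Nat.clog 2 l ≤ l * B * Nat.clog 2 R := by
    intro l hl
    refine mul_le_mul_of_nonneg_left ?_ (by positivity)
    exact_mod_cast Nat.clog_mono_right 2 hl
  have h2 := (h1 k hk x).trans (hmono k hk)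
  have h3 := (h1 (k / 2) (by omega) (2 * x)).trans (hmono _ (by omega))
  have h4 := (h1 ((k + 1) / 2) (by omega) (2 * x)).trans (hmono _ (by omega))
  have hk2 : (k : ℝ) = ((k / 2 : ℕ) : ℝ) + (((k + 1) / 2 : ℕ) : ℝ) := by
    have : k = k / 2 + (k + 1) / 2 := by omega
    exact_mod_cast this
  rw [e2]
  refine (abs_sub _ _).trans ?_
  have h5 := abs_add_le (w * Ss (od a) (k / 2) (2 * x)).re (w * Ss (od a) ((k + 1) / 2) (2 * x)).re
  calc _ ≤ (k : ℝ) * B * Nat.clog 2 R + (((k / 2 : ℕ) : ℝ) * B * Nat.clog 2 R +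
        (((k + 1) / 2 : ℕ) : ℝ) * B * Nat.clog 2 R) := by linarith
    _ = (k : ℝ) * B * Nat.clog 2 R + (((k / 2 : ℕ) : ℝ) + (((k + 1) / 2 : ℕ) : ℝ)) * B * Nat.clog 2 R := by ring
    _ = _ := by
        rw [← hk2]
        ring

/-- real coefficients -/
theorem Ss_conj {a : ℕ → ℂ} (ha : ∀ n, (starRingEnd ℂ) (a n) = a n) (k : ℕ) (x : ℝ) :
    Ss a k (-x) = (starRingEnd ℂ) (Ss a k x) := by
  rw [Ss_def, Ss_def, map_sum]
  refine Finset.sum_congr rfl fun n _ => ?_
  rw [map_mul, map_mul, ha, ee_conj]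
  have e1 : (starRingEnd ℂ) ((k : ℂ) - n) = (k : ℂ) - n := by simp
  rw [e1, mul_neg]

theorem re_im_bound {a : ℕ → ℂ} (ha : ∀ n, (starRingEnd ℂ) (a n) = a n) {w : ℂ} {k : ℕ} {D : ℝ}
    (h : ∀ x : ℝ, |(w * Ss a k x).re| ≤ D) (x : ℝ) :
    |w.re| * |(Ss a k x).re| ≤ D ∧ |w.im| * |(Ss a k x).im| ≤ D := by
  have h1 := h x
  have h2 := h (-x)
  rw [Ss_conj ha] at h2
  simp only [Complex.mul_re, Complex.conj_re, Complex.conj_im] at h1 h2
  rw [← abs_mul, ← abs_mul]
  rw [abs_le] at h1 h2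
  constructor
  · rw [abs_le]
    constructor <;> nlinarith
  · rw [abs_le]
    constructor <;> nlinarith

/-- the Moebius function satisfies the rule -/
theorem mu_rule : TwoRule (fun n => ((ArithmeticFunction.moebius n : ℤ) : ℂ)) := by
  intro m _
  unfold od
  by_cases hm : Odd m
  · rw [if_pos hm]
    have hc : Nat.Coprime 2 m := by
      rw [Nat.coprime_two_left]
      exact hm
    simp only
    rw [ArithmeticFunction.isMultiplicative_moebius.map_mul_of_coprime hc,
      ArithmeticFunction.moebius_apply_prime Nat.prime_two]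
    push_cast
    ring
  · rw [if_neg hm, neg_zero]
    rw [Nat.not_odd_iff_even] at hm
    obtain ⟨l, rfl⟩ := hm
    simp only
    rw [ArithmeticFunction.moebius_eq_zero_of_not_squarefree]
    · simp
    · intro hs
      have := hs 2 ⟨l, by ring⟩
      norm_num at this

end

end Pool.Agent.N739.SN
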